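import Mathlib

set_option autoImplicit false

/-! Gaussian product inequality (MP_808c93_pr): definitions. -/

open MeasureTheory ProbabilityTheory

namespace GPI427

/-- the standard Gaussian measure on `ι → ℝ` -/
noncomputable def gam (ι : Type) [Fintype ι] : Measure (ι → ℝ) :=
  Measure.pi fun _ => gaussianReal 0 1

/-- scalar product -/
def dot {ι : Type} [Fintype ι] (a x : ι → ℝ) : ℝ := ∑ i, a i * x i

/-- `S(x) = ∑_j (c_j / <u_j, x>) u_j` -/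
noncomputable def Sv {ι κ : Type} [Fintype ι] [Fintype κ] (u : κ → ι → ℝ) (c : κ → ℝ)
    (x : ι → ℝ) : ι → ℝ :=
  fun i => ∑ j, c j / dot (u j) x * u j i

/-- `H(x, x') = exp (i ∑_j c_j <u_j, x'> / <u_j, x>)` -/
noncomputable def Hf {ι κ : Type} [Fintype ι] [Fintype κ] (u : κ → ι → ℝ) (c : κ → ℝ)
    (p : (ι → ℝ) × (ι → ℝ)) : ℂ :=
  Complex.exp (Complex.I * ((∑ j, c j * (dot (u j) p.2 / dot (u j) p.1) : ℝ) : ℂ))

/-- the bounded analytic function of one variable -/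
noncomputable def Ff {κ : Type} [Fintype κ] (c : κ → ℝ) (ω : κ → ℂ) (v : ℂ) : ℂ :=
  Complex.exp (-∑ j, (c j : ℂ) * ((1 - ω j * v) / (1 + ω j * v)))

/-- rotation of the pair `(x, x')` -/
noncomputable def rot {ι : Type} (θ : ℝ) (p : (ι → ℝ) × (ι → ℝ)) : (ι → ℝ) × (ι → ℝ) :=
  (Real.cos θ • p.1 + Real.sin θ • p.2, -Real.sin θ • p.1 + Real.cos θ • p.2)

/-- `ω_j = ζ_j / conj ζ_j`, `ζ_j = <u_j, x> + i <u_j, x'>` -/
noncomputable def om {ι κ : Type} [Fintype ι] (u : κ → ι → ℝ) (p : (ι → ℝ) × (ι → ℝ))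
    (j : κ) : ℂ :=
  ((dot (u j) p.1 : ℂ) + Complex.I * (dot (u j) p.2 : ℂ)) /
    ((dot (u j) p.1 : ℂ) - Complex.I * (dot (u j) p.2 : ℂ))

/-- `α_k = x_k + i x'_k` -/
noncomputable def al {ι : Type} (p : (ι → ℝ) × (ι → ℝ)) (k : ι) : ℂ :=
  (p.1 k : ℂ) + Complex.I * (p.2 k : ℂ)

end GPI427
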