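import Pool.Agent.H427R2.GPI.Defs

set_option autoImplicit false

/-! Gaussian product inequality: task I (helper423). -/

open MeasureTheory ProbabilityTheory

namespace GPI427

theorem I_meas_dot {ι : Type} [Fintype ι] (a : ι → ℝ) : Measurable (fun x : ι → ℝ => dot a x) := by
  unfold dot
  fun_prop

theorem I_meas_Sv {ι κ : Type} [Fintype ι] [Fintype κ] (u : κ → ι → ℝ) (c : κ → ℝ) (i : ι) :
    Measurable (fun x : ι → ℝ => Sv u c x i) := by
  unfold Sv
  apply Finset.measurable_sum
  intro j _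
  exact ((measurable_const.div (I_meas_dot (u j)))).mul_const _

theorem I_meas_Q {ι κ : Type} [Fintype ι] [Fintype κ] (u : κ → ι → ℝ) (c : κ → ℝ) :
    Measurable (fun x : ι → ℝ => ∑ i, Sv u c x i ^ 2) := by
  apply Finset.measurable_sum
  intro i _
  exact (I_meas_Sv u c i).pow_const 2

theorem I_meas_E {ι κ : Type} [Fintype ι] [Fintype κ] (u : κ → ι → ℝ) (c : κ → ℝ) :
    Measurable (fun x : ι → ℝ => Real.exp (-(∑ i, Sv u c x i ^ 2) / 2)) :=
  Real.measurable_exp.comp ((I_meas_Q u c).neg.div_const 2)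

instance I_prob {ι : Type} [Fintype ι] : IsProbabilityMeasure (gam ι) := by
  unfold gam; infer_instance

theorem I_int_E {ι κ : Type} [Fintype ι] [Fintype κ] (u : κ → ι → ℝ) (c : κ → ℝ) :
    Integrable (fun x : ι → ℝ => Real.exp (-(∑ i, Sv u c x i ^ 2) / 2)) (gam ι) := by
  apply Integrable.of_bound (C := 1) (I_meas_E u c).aestronglyMeasurable
  apply Filter.Eventually.of_forall
  intro x
  rw [Real.norm_eq_abs, abs_of_pos (Real.exp_pos _)]
  apply Real.exp_le_one_iff.2
  have : 0 ≤ ∑ i, Sv u c x i ^ 2 := Finset.sum_nonneg fun i _ => sq_nonneg _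
  linarith

theorem I_int_SS {ι κ : Type} [Fintype ι] [Fintype κ] (u : κ → ι → ℝ) (c : κ → ℝ) (k l : ι) :
    Integrable (fun x : ι → ℝ => Sv u c x k * Sv u c x l *
      Real.exp (-(∑ i, Sv u c x i ^ 2) / 2)) (gam ι) := by
  apply Integrable.of_bound (C := 2)
    (((I_meas_Sv u c k).mul (I_meas_Sv u c l)).mul (I_meas_E u c)).aestronglyMeasurable
  apply Filter.Eventually.of_forall
  intro x
  set Q : ℝ := ∑ i, Sv u c x i ^ 2 with hQ
  have hk : Sv u c x k ^ 2 ≤ Q :=
    Finset.single_le_sum (f := fun i => Sv u c x i ^ 2) (fun i _ => sq_nonneg _) (Finset.mem_univ k)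
  have hl : Sv u c x l ^ 2 ≤ Q :=
    Finset.single_le_sum (f := fun i => Sv u c x i ^ 2) (fun i _ => sq_nonneg _) (Finset.mem_univ l)
  have h1 : |Sv u c x k * Sv u c x l| ≤ Q := by
    rw [abs_le]
    constructor
    · nlinarith [sq_nonneg (Sv u c x k + Sv u c x l)]
    · nlinarith [sq_nonneg (Sv u c x k - Sv u c x l)]
  have h2 : Q / 2 ≤ Real.exp (Q / 2) := by linarith [Real.add_one_le_exp (Q / 2)]
  have h3 : Real.exp (-Q / 2) * Real.exp (Q / 2) = 1 := by
    rw [← Real.exp_add]; simp; ring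
  have h4 : 0 < Real.exp (-Q / 2) := Real.exp_pos _
  change ‖Sv u c x k * Sv u c x l * Real.exp (-Q / 2)‖ ≤ 2
  rw [norm_mul, Real.norm_eq_abs, Real.norm_eq_abs, abs_of_pos h4]
  calc |Sv u c x k * Sv u c x l| * Real.exp (-Q / 2) ≤ Q * Real.exp (-Q / 2) :=
        mul_le_mul_of_nonneg_right h1 h4.le
    _ ≤ (2 * Real.exp (Q / 2)) * Real.exp (-Q / 2) := by
        apply mul_le_mul_of_nonneg_right _ h4.le
        linarith
    _ = 2 := by linarith [h3]

theorem I_sq {ι κ : Type} [Fintype ι] [Fintype κ] [DecidableEq κ] (u : κ → ι → ℝ)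
    (c : κ → ℝ) (x : ι → ℝ) :
    ∑ i, Sv u c x i ^ 2 = ∑ j, c j ^ 2 * (∑ i, u j i ^ 2) / dot (u j) x ^ 2
      + ∑ j, ∑ k, (if j = k then 0 else
        (c j / dot (u j) x) * (c k / dot (u k) x) * ∑ i, u j i * u k i) := by
  have h1 : ∀ i, Sv u c x i ^ 2 = ∑ j, ∑ k, (c j / dot (u j) x) * (c k / dot (u k) x) *
      (u j i * u k i) := by
    intro i
    unfold Sv
    rw [pow_two, Finset.sum_mul_sum]
    apply Finset.sum_congr rfl
    intro j _
    apply Finset.sum_congr rfl
    intro k _
    ring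
  rw [Finset.sum_congr rfl (fun i _ => h1 i)]
  rw [Finset.sum_comm, ← Finset.sum_add_distrib]
  apply Finset.sum_congr rfl
  intro j _
  rw [Finset.sum_comm]
  have h2 : ∀ k, ∑ i, (c j / dot (u j) x) * (c k / dot (u k) x) * (u j i * u k i)
      = (if j = k then c j ^ 2 * (∑ i, u j i ^ 2) / dot (u j) x ^ 2 else 0)
        + (if j = k then 0 else
        (c j / dot (u j) x) * (c k / dot (u k) x) * ∑ i, u j i * u k i) := by
    intro k
    split_ifs with h
    · subst h
      rw [add_zero, ← Finset.mul_sum]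
      have : ∑ i, u j i * u j i = ∑ i, u j i ^ 2 :=
        Finset.sum_congr rfl fun i _ => by ring
      rw [this]
      ring
    · rw [zero_add, ← Finset.mul_sum]
  rw [Finset.sum_congr rfl (fun k _ => h2 k), Finset.sum_add_distrib]
  congr 1
  simp

theorem I1 {ι κ : Type} [Fintype ι] [Fintype κ] [DecidableEq κ] (u : κ → ι → ℝ)
    (c : κ → ℝ) (hc : ∀ j, 0 ≤ c j) (e : κ → ι) (he : Function.Injective e) (δ : ℝ)
    (hδ : δ ≠ 0) (hue : ∀ j j', u j (e j') = if j = j' then δ else 0)
    (h0 : ∫ x, Real.exp (-(∑ i, Sv u c x i ^ 2) / 2) ∂(gam ι) = Real.exp (-∑ j, c j))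
    (h1 : ∀ k l : ι, k ≠ l → (∀ j, u j k = 0 ∨ u j l = 0) →
      ∫ x, Sv u c x k * Sv u c x l * Real.exp (-(∑ i, Sv u c x i ^ 2) / 2) ∂(gam ι) = 0) :
    Real.exp (-∑ j, c j) ≤
      ∫ x, Real.exp (-(∑ j, c j ^ 2 * (∑ i, u j i ^ 2) / dot (u j) x ^ 2) / 2) ∂(gam ι) := by
  have hS : ∀ (x : ι → ℝ) (j : κ), Sv u c x (e j) = (c j / dot (u j) x) * δ := by
    intro x j
    unfold Sv
    rw [Finset.sum_eq_single j]
    · rw [hue]; simp
    · intro b _ hb
      rw [hue]; simp [hb]
    · intro h; exact absurd (Finset.mem_univ j) h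
  set E : (ι → ℝ) → ℝ := fun x => Real.exp (-(∑ i, Sv u c x i ^ 2) / 2) with hE
  -- the lower bound function
  set T : (ι → ℝ) → ℝ := fun x => E x + ∑ j, ∑ k, (if j = k then 0 else
    (1 / (2 * δ ^ 2) * ∑ i, u j i * u k i) * (Sv u c x (e j) * Sv u c x (e k) * E x)) with hT
  have hterm : ∀ j k : κ, Integrable (fun x => (if j = k then 0 else
    (1 / (2 * δ ^ 2) * ∑ i, u j i * u k i) * (Sv u c x (e j) * Sv u c x (e k) * E x))) (gam ι) := by
    intro j k
    split_ifs
    · exact integrable_zero _ _ _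
    · exact (I_int_SS u c (e j) (e k)).const_mul _
  have hTint : Integrable T (gam ι) := by
    apply (I_int_E u c).add
    apply integrable_finsetSum
    intro j _
    apply integrable_finsetSum
    intro k _
    exact hterm j k
  have hTval : ∫ x, T x ∂(gam ι) = Real.exp (-∑ j, c j) := by
    rw [hT]
    rw [integral_add (I_int_E u c) (integrable_finsetSum _ fun j _ =>
      integrable_finsetSum _ fun k _ => hterm j k)]
    rw [h0, integral_finsetSum _ fun j _ => integrable_finsetSum _ fun k _ => hterm j k]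
    have : ∀ j ∈ (Finset.univ : Finset κ), ∫ x, (∑ k, (if j = k then 0 else
      (1 / (2 * δ ^ 2) * ∑ i, u j i * u k i) * (Sv u c x (e j) * Sv u c x (e k) * E x))) ∂(gam ι)
      = 0 := by
      intro j _
      rw [integral_finsetSum _ fun k _ => hterm j k]
      apply Finset.sum_eq_zero
      intro k _
      split_ifs with hjk
      · simp
      · rw [integral_const_mul]
        have := h1 (e j) (e k) (fun h => hjk (he h)) (by
          intro j'
          rw [hue, hue]
          by_cases hj : j' = j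
          · right
            rw [if_neg]
            rw [hj]; exact hjk
          · left
            rw [if_neg hj])
        rw [this, mul_zero]
    rw [Finset.sum_eq_zero this, add_zero]
  rw [← hTval]
  apply integral_mono hTint
  · apply Integrable.of_bound (C := 1)
    · apply Measurable.aestronglyMeasurable
      apply Real.measurable_exp.comp
      apply Measurable.div_const
      apply Measurable.neg
      apply Finset.measurable_sum
      intro j _
      exact measurable_const.div ((I_meas_dot (u j)).pow_const 2)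
    · apply Filter.Eventually.of_forall
      intro x
      rw [Real.norm_eq_abs, abs_of_pos (Real.exp_pos _)]
      apply Real.exp_le_one_iff.2
      have : 0 ≤ ∑ j, c j ^ 2 * (∑ i, u j i ^ 2) / dot (u j) x ^ 2 :=
        Finset.sum_nonneg fun j _ => div_nonneg (mul_nonneg (sq_nonneg _)
          (Finset.sum_nonneg fun i _ => sq_nonneg _)) (sq_nonneg _)
      linarith
  · intro x
    set D : ℝ := (∑ j, ∑ k, (if j = k then 0 else
        (c j / dot (u j) x) * (c k / dot (u k) x) * ∑ i, u j i * u k i)) / 2 with hD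
    have e1 : -(∑ j, c j ^ 2 * (∑ i, u j i ^ 2) / dot (u j) x ^ 2) / 2
        = -(∑ i, Sv u c x i ^ 2) / 2 + D := by
      rw [I_sq u c x, hD]
      ring
    have e2 : T x = E x * (1 + D) := by
      rw [hT, hD]
      simp only
      rw [mul_add, mul_one]
      congr 1
      rw [Finset.sum_div, Finset.mul_sum]
      apply Finset.sum_congr rfl
      intro j _
      rw [Finset.sum_div, Finset.mul_sum]
      apply Finset.sum_congr rfl
      intro k _
      split_ifs
      · simp
      · rw [hS, hS]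
        field_simp
    show T x ≤ Real.exp (-(∑ j, c j ^ 2 * (∑ i, u j i ^ 2) / dot (u j) x ^ 2) / 2)
    rw [e1, Real.exp_add, e2]
    apply mul_le_mul_of_nonneg_left _ (Real.exp_pos _).le
    linarith [Real.add_one_le_exp D]

end GPI427
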