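import Pool.Agent.H427R2.GPI.Defs

set_option autoImplicit false

/-! Task J: the limit `δ → 0`. -/

open MeasureTheory ProbabilityTheory Filter Topology

namespace GPI427

/-- the integrand on the product space -/
noncomputable def J_G {ι κ : Type} [Fintype ι] [Fintype κ] (a : κ → ι → ℝ) (c : κ → ℝ) (δ : ℝ)
    (p : (ι → ℝ) × (κ → ℝ)) : ℝ :=
  Real.exp (-(∑ j, c j ^ 2 * (∑ i, a j i ^ 2 + δ ^ 2) / (dot (a j) p.1 + δ * p.2 j) ^ 2) / 2)

theorem J_meas_dot {ι : Type} [Fintype ι] (b : ι → ℝ) : Measurable (dot b) := by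
  unfold dot
  fun_prop

theorem J_G_meas {ι κ : Type} [Fintype ι] [Fintype κ] (a : κ → ι → ℝ) (c : κ → ℝ) (δ : ℝ) :
    Measurable (J_G a c δ) := by
  unfold J_G
  have h : ∀ j, Measurable fun p : (ι → ℝ) × (κ → ℝ) => dot (a j) p.1 := fun j =>
    (J_meas_dot (a j)).comp measurable_fst
  fun_prop

theorem J_G_le {ι κ : Type} [Fintype ι] [Fintype κ] (a : κ → ι → ℝ) (c : κ → ℝ) (δ : ℝ)
    (p : (ι → ℝ) × (κ → ℝ)) : ‖J_G a c δ p‖ ≤ 1 := by
  unfold J_G
  rw [Real.norm_eq_abs, abs_of_pos (Real.exp_pos _), Real.exp_le_one_iff]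
  have : 0 ≤ ∑ j, c j ^ 2 * (∑ i, a j i ^ 2 + δ ^ 2) / (dot (a j) p.1 + δ * p.2 j) ^ 2 :=
    Finset.sum_nonneg fun j _ => div_nonneg (mul_nonneg (sq_nonneg _)
      (add_nonneg (Finset.sum_nonneg fun i _ => sq_nonneg _) (sq_nonneg _))) (sq_nonneg _)
  linarith

/-- J: main inequality for arbitrary nonzero linear forms (limit δ → 0 of I1 on `ι ⊕ κ`) -/
theorem J {ι κ : Type} [Fintype ι] [Fintype κ] [DecidableEq κ]
    (hD : ∀ (b : ι → ℝ), b ≠ 0 → ∀ᵐ x ∂(gam ι), dot b x ≠ 0)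
    (hI : ∀ (u : κ → ι ⊕ κ → ℝ) (c : κ → ℝ), (∀ j, 0 ≤ c j) → ∀ δ : ℝ, δ ≠ 0 →
      (∀ j j', u j (Sum.inr j') = if j = j' then δ else 0) →
      Real.exp (-∑ j, c j) ≤ ∫ x, Real.exp (-(∑ j, c j ^ 2 * (∑ i, u j i ^ 2) /
        dot (u j) x ^ 2) / 2) ∂(gam (ι ⊕ κ)))
    (a : κ → ι → ℝ) (ha : ∀ j, a j ≠ 0) (c : κ → ℝ) (hc : ∀ j, 0 ≤ c j) :
    Real.exp (-∑ j, c j) ≤
      ∫ x, Real.exp (-(∑ j, c j ^ 2 * (∑ i, a j i ^ 2) / dot (a j) x ^ 2) / 2) ∂(gam ι) := by
  have hprob1 : IsProbabilityMeasure (gam ι) := by unfold gam; infer_instance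
  have hprob2 : IsProbabilityMeasure (gam κ) := by unfold gam; infer_instance
  have hmp : MeasurePreserving (MeasurableEquiv.sumPiEquivProdPi fun _ : ι ⊕ κ => ℝ).symm
      ((gam ι).prod (gam κ)) (gam (ι ⊕ κ)) :=
    measurePreserving_sumPiEquivProdPi_symm (fun _ : ι ⊕ κ => gaussianReal 0 1)
  have step : ∀ δ : ℝ, δ ≠ 0 → Real.exp (-∑ j, c j) ≤
      ∫ p, J_G a c δ p ∂((gam ι).prod (gam κ)) := by
    intro δ hδ
    have h1 := hI (fun j => Sum.elim (a j) (fun j' => if j = j' then δ else 0)) c hc δ hδ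
      (fun j j' => rfl)
    refine h1.trans (le_of_eq ?_)
    rw [← hmp.integral_comp']
    refine integral_congr_ae (Eventually.of_forall fun p => ?_)
    simp only [J_G]
    congr 3
    refine Finset.sum_congr rfl fun j _ => ?_
    congr 1
    · congr 1
      rw [Fintype.sum_sum_type]
      simp only [Sum.elim_inl, Sum.elim_inr]
      congr 1
      rw [Finset.sum_eq_single j]
      · simp
      · intro b _ hb; simp [hb.symm]
      · simp
    · congr 1
      unfold dot
      rw [Fintype.sum_sum_type]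
      simp only [Sum.elim_inl, Sum.elim_inr]
      congr 1
      rw [Finset.sum_eq_single j]
      · simp only [if_true]; rfl
      · intro b _ hb; simp [hb.symm]
      · simp
  have hlim : Tendsto (fun m : ℕ => ∫ p, J_G a c (1 / ((m:ℝ) + 1)) p ∂((gam ι).prod (gam κ)))
      atTop (𝓝 (∫ p, J_G a c 0 p ∂((gam ι).prod (gam κ)))) := by
    apply tendsto_integral_of_dominated_convergence (fun _ => (1:ℝ))
    · intro m
      exact (J_G_meas a c _).aestronglyMeasurable
    · exact integrable_const _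
    · intro m
      exact Eventually.of_forall fun p => J_G_le a c _ p
    · have hae : ∀ᵐ x ∂(gam ι), ∀ j, dot (a j) x ≠ 0 := by
        rw [ae_all_iff]
        intro j
        exact hD (a j) (ha j)
      have hae2 : ∀ᵐ p ∂((gam ι).prod (gam κ)), ∀ j, dot (a j) p.1 ≠ 0 :=
        Measure.quasiMeasurePreserving_fst.ae hae
      filter_upwards [hae2] with p hp
      unfold J_G
      have hd : Tendsto (fun m : ℕ => 1 / ((m:ℝ) + 1)) atTop (𝓝 0) :=
        tendsto_one_div_add_atTop_nhds_zero_nat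
      have hcont : ContinuousAt (fun δ : ℝ => Real.exp (-(∑ j, c j ^ 2 *
          (∑ i, a j i ^ 2 + δ ^ 2) / (dot (a j) p.1 + δ * p.2 j) ^ 2) / 2)) 0 := by
        apply ContinuousAt.rexp
        apply ContinuousAt.div_const
        apply ContinuousAt.neg
        apply tendsto_finsetSum
        intro j _
        apply ContinuousAt.div
        · fun_prop
        · fun_prop
        · have := hp j
          simp [this]
      have h3 := hcont.tendsto.comp hd
      exact h3
  have h5 : Real.exp (-∑ j, c j) ≤ ∫ p, J_G a c 0 p ∂((gam ι).prod (gam κ)) :=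
    ge_of_tendsto' hlim fun m => step _ (by positivity)
  refine h5.trans (le_of_eq ?_)
  have hmf : MeasurePreserving (Prod.fst : (ι → ℝ) × (κ → ℝ) → (ι → ℝ))
      ((gam ι).prod (gam κ)) (gam ι) := measurePreserving_fst
  set f : (ι → ℝ) → ℝ := fun x =>
      Real.exp (-(∑ j, c j ^ 2 * (∑ i, a j i ^ 2) / dot (a j) x ^ 2) / 2) with hf
  have h6 : ∫ p, J_G a c 0 p ∂((gam ι).prod (gam κ)) = ∫ p, f p.1
        ∂((gam ι).prod (gam κ)) := by
    refine integral_congr_ae (Eventually.of_forall fun p => ?_)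
    simp only [J_G, hf]
    congr 3
    refine Finset.sum_congr rfl fun j _ => ?_
    simp
  rw [h6, integral_fun_fst]
  simp

end GPI427
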