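import Pool.Agent.H427R2.GPI.Defs

set_option autoImplicit false

open MeasureTheory ProbabilityTheory
open scoped ENNReal

namespace GPI427

theorem K_lintegral_fin {n : ℕ} (μ : Fin n → Measure ℝ) [∀ i, SigmaFinite (μ i)]
    (f : Fin n → ℝ → ℝ≥0∞) (hf : ∀ i, Measurable (f i)) :
    ∫⁻ x : Fin n → ℝ, ∏ i, f i (x i) ∂(Measure.pi μ) = ∏ i, ∫⁻ x, f i x ∂(μ i) := by
  induction n with
  | zero => simp
  | succ n n_ih =>
      calc
        _ = ∫⁻ x : ℝ × (Fin n → ℝ),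
            f 0 x.1 * ∏ i : Fin n, f (Fin.succ i) (x.2 i)
            ∂((μ 0).prod (Measure.pi (fun i ↦ μ i.succ))) := by
          rw [← ((measurePreserving_piFinSuccAbove μ 0).symm).lintegral_comp_emb
            (MeasurableEquiv.measurableEmbedding _)]
          simp_rw [MeasurableEquiv.piFinSuccAbove_symm_apply, Fin.insertNthEquiv,
            Fin.prod_univ_succ, Fin.insertNth_zero, Equiv.coe_fn_mk, Fin.cons_succ,
            Fin.zero_succAbove, cast_eq, Fin.cons_zero]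
        _ = (∫⁻ x, f 0 x ∂μ 0)
            * ∏ i : Fin n, ∫⁻ x, f (Fin.succ i) x ∂(μ i.succ) := by
          have h2 := n_ih (fun i => μ i.succ) (fun i => f i.succ) (fun i => hf _)
          rw [← h2]
          exact lintegral_prod_mul (hf 0).aemeasurable
            ((Finset.measurable_prod Finset.univ fun i _ =>
              (hf (Fin.succ i)).comp (measurable_pi_apply i)).aemeasurable)
        _ = ∏ i, ∫⁻ x, f i x ∂(μ i) := by rw [Fin.prod_univ_succ]

theorem K_lintegral {κ : Type} [Fintype κ] (μ : κ → Measure ℝ) [∀ i, SigmaFinite (μ i)]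
    (f : κ → ℝ → ℝ≥0∞) (hf : ∀ i, Measurable (f i)) :
    ∫⁻ x : κ → ℝ, ∏ i, f i (x i) ∂(Measure.pi μ) = ∏ i, ∫⁻ x, f i x ∂(μ i) := by
  let e := (Fintype.equivFin κ).symm
  rw [← (measurePreserving_piCongrLeft μ e).lintegral_comp_emb
    (MeasurableEquiv.measurableEmbedding _)]
  simp_rw [← e.prod_comp, MeasurableEquiv.coe_piCongrLeft, Equiv.piCongrLeft_apply_apply]
  exact K_lintegral_fin (fun i => μ (e i)) (fun i => f (e i)) (fun i => hf _)

/-- the weight function of the mixture -/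
noncomputable def K_g (α s2 c y : ℝ) : ℝ≥0∞ :=
  ENNReal.ofReal (c ^ (α - 1)) * ENNReal.ofReal (Real.exp (-(c ^ 2 * s2 / y ^ 2) / 2))

theorem K_g_meas (α s2 : ℝ) : Measurable (fun p : ℝ × ℝ => K_g α s2 p.1 p.2) := by
  unfold K_g
  fun_prop

theorem K_g_int (α s2 y : ℝ) (hs : 0 < s2) (hα : 0 < α) (hy : y ≠ 0)
    (hK1 : ∀ α s y : ℝ, 0 < α → 0 < s → y ≠ 0 →
      IntegrableOn (fun c : ℝ => c ^ (α - 1) * Real.exp (-(c ^ 2 * s ^ 2 / y ^ 2) / 2))
        (Set.Ioi 0) ∧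
      ∫ c in Set.Ioi (0:ℝ), c ^ (α - 1) * Real.exp (-(c ^ 2 * s ^ 2 / y ^ 2) / 2)
        = (|y| / s) ^ α * (2 ^ (α / 2 - 1) * Real.Gamma (α / 2))) :
    ∫⁻ c in Set.Ioi (0:ℝ), K_g α s2 c y
      = ENNReal.ofReal ((Real.sqrt s2) ^ (-α) * (2 ^ (α / 2 - 1) * Real.Gamma (α / 2))) *
        ENNReal.ofReal (|y| ^ α) := by
  have hs' : 0 < Real.sqrt s2 := Real.sqrt_pos.2 hs
  obtain ⟨h1, h2⟩ := hK1 α (Real.sqrt s2) y hα hs' hy
  rw [Real.sq_sqrt hs.le] at h1 h2
  have h3 : ∫⁻ c in Set.Ioi (0:ℝ), K_g α s2 c y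
      = ∫⁻ c in Set.Ioi (0:ℝ),
        ENNReal.ofReal (c ^ (α - 1) * Real.exp (-(c ^ 2 * s2 / y ^ 2) / 2)) := by
    refine setLIntegral_congr_fun measurableSet_Ioi fun c hc => ?_
    simp only [K_g]
    rw [ENNReal.ofReal_mul (Real.rpow_nonneg (le_of_lt hc) _)]
  rw [h3, ← ofReal_integral_eq_lintegral_ofReal h1, h2]
  · rw [← ENNReal.ofReal_mul]
    · congr 1
      rw [Real.div_rpow (abs_nonneg _) hs'.le, Real.rpow_neg hs'.le]
      ring
    · have := Real.Gamma_pos_of_pos (half_pos hα)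
      positivity
  · refine (ae_restrict_iff' measurableSet_Ioi).2 (Filter.Eventually.of_forall fun c hc => ?_)
    have : (0:ℝ) ≤ c ^ (α - 1) := Real.rpow_nonneg (le_of_lt hc) _
    positivity

/-- joint measurability of the product of weights -/
theorem K_prod_meas {ι κ : Type} [Fintype ι] [Fintype κ] (a : κ → ι → ℝ) (α s2 : κ → ℝ) :
    Measurable (fun p : (ι → ℝ) × (κ → ℝ) =>
      ∏ j, K_g (α j) (s2 j) (p.2 j) (dot (a j) p.1)) := by
  refine Finset.measurable_prod Finset.univ fun j _ => ?_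
  have h1 : Measurable (fun p : (ι → ℝ) × (κ → ℝ) => dot (a j) p.1) := by
    unfold dot
    fun_prop
  have h2 : Measurable (fun p : (ι → ℝ) × (κ → ℝ) => p.2 j) := by fun_prop
  exact (K_g_meas (α j) (s2 j)).comp (h2.prodMk h1)

instance K_gam_prob {ι : Type} [Fintype ι] : IsProbabilityMeasure (gam ι) := by
  unfold gam; infer_instance

/-- Tonelli for the product of weights -/
theorem K_ton {ι κ : Type} [Fintype ι] [Fintype κ] (a : κ → ι → ℝ) (α s2 : κ → ℝ) :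
    ∫⁻ x, ∏ j, (∫⁻ c in Set.Ioi (0:ℝ), K_g (α j) (s2 j) c (dot (a j) x)) ∂(gam ι)
      = ∫⁻ c : κ → ℝ, (∫⁻ x, ∏ j, K_g (α j) (s2 j) (c j) (dot (a j) x) ∂(gam ι))
          ∂(Measure.pi fun _ : κ => volume.restrict (Set.Ioi (0:ℝ))) := by
  rw [← lintegral_lintegral_swap (K_prod_meas a α s2).aemeasurable]
  refine lintegral_congr fun x => ?_
  rw [K_lintegral (fun _ : κ => volume.restrict (Set.Ioi (0:ℝ)))
    (fun j c => K_g (α j) (s2 j) c (dot (a j) x))]
  intro j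
  exact (K_g_meas (α j) (s2 j)).comp (Measurable.prodMk measurable_id measurable_const)

theorem K_exp_int {ι κ : Type} [Fintype ι] [Fintype κ] (a : κ → ι → ℝ) (s2 : κ → ℝ)
    (hs2 : ∀ j, 0 ≤ s2 j) (c : κ → ℝ) :
    ∫⁻ x, ENNReal.ofReal (Real.exp (-(∑ j, c j ^ 2 * s2 j / dot (a j) x ^ 2) / 2)) ∂(gam ι)
      = ENNReal.ofReal (∫ x, Real.exp (-(∑ j, c j ^ 2 * s2 j / dot (a j) x ^ 2) / 2)
          ∂(gam ι)) := by
  rw [ofReal_integral_eq_lintegral_ofReal]
  · refine Integrable.of_bound (C := 1) (Measurable.aestronglyMeasurable ?_)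
      (Filter.Eventually.of_forall fun x => ?_)
    · unfold dot
      fun_prop
    · rw [Real.norm_eq_abs, abs_of_pos (Real.exp_pos _)]
      rw [Real.exp_le_one_iff]
      have : 0 ≤ ∑ j, c j ^ 2 * s2 j / dot (a j) x ^ 2 :=
        Finset.sum_nonneg fun j _ => by have := hs2 j; positivity
      linarith
  · exact Filter.Eventually.of_forall fun x => (Real.exp_pos _).le

theorem K_prod_eq {ι κ : Type} [Fintype ι] [Fintype κ] (a : κ → ι → ℝ) (α s2 : κ → ℝ)
    (c : κ → ℝ) (x : ι → ℝ) :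
    ∏ j, K_g (α j) (s2 j) (c j) (dot (a j) x)
      = (∏ j, ENNReal.ofReal (c j ^ (α j - 1))) *
        ENNReal.ofReal (Real.exp (-(∑ j, c j ^ 2 * s2 j / dot (a j) x ^ 2) / 2)) := by
  unfold K_g
  rw [Finset.prod_mul_distrib, ← ENNReal.ofReal_prod_of_nonneg (fun j _ => (Real.exp_pos _).le),
    ← Real.exp_sum]
  congr 3
  rw [← Finset.sum_div, Finset.sum_neg_distrib]

theorem K {ι κ : Type} [Fintype ι] [Fintype κ] (a : κ → ι → ℝ) (ha : ∀ j, a j ≠ 0)
    (α : κ → ℝ) (hα : ∀ j, 0 < α j)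
    (hJ : ∀ c : κ → ℝ, (∀ j, 0 ≤ c j) → Real.exp (-∑ j, c j) ≤
      ∫ x, Real.exp (-(∑ j, c j ^ 2 * (∑ i, a j i ^ 2) / dot (a j) x ^ 2) / 2) ∂(gam ι))
    (hK0 : ∀ j, ∀ c : ℝ, 0 ≤ c → ∫ x, Real.exp (-(c ^ 2 * (∑ i, a j i ^ 2) /
      dot (a j) x ^ 2) / 2) ∂(gam ι) = Real.exp (-c))
    (hK1 : ∀ α s y : ℝ, 0 < α → 0 < s → y ≠ 0 →
      IntegrableOn (fun c : ℝ => c ^ (α - 1) * Real.exp (-(c ^ 2 * s ^ 2 / y ^ 2) / 2))
        (Set.Ioi 0) ∧
      ∫ c in Set.Ioi (0:ℝ), c ^ (α - 1) * Real.exp (-(c ^ 2 * s ^ 2 / y ^ 2) / 2)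
        = (|y| / s) ^ α * (2 ^ (α / 2 - 1) * Real.Gamma (α / 2)))
    (hD : ∀ j, ∀ᵐ x ∂(gam ι), dot (a j) x ≠ 0)
    (hL0 : Integrable (fun x => ∏ j, |dot (a j) x| ^ α j) (gam ι))
    (hL1 : ∀ j, Integrable (fun x => |dot (a j) x| ^ α j) (gam ι)) :
    ∏ j, ∫ x, |dot (a j) x| ^ α j ∂(gam ι) ≤ ∫ x, ∏ j, |dot (a j) x| ^ α j ∂(gam ι) := by
  classical
  set s2 : κ → ℝ := fun j => ∑ i, a j i ^ 2 with hs2def
  have hs2 : ∀ j, 0 < s2 j := by
    intro j
    obtain ⟨i, hi⟩ : ∃ i, a j i ≠ 0 := by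
      by_contra h
      push Not at h
      exact ha j (funext h)
    exact Finset.sum_pos' (fun i _ => sq_nonneg _) ⟨i, Finset.mem_univ _, by positivity⟩
  set D : κ → ℝ := fun j =>
    (Real.sqrt (s2 j)) ^ (-(α j)) * (2 ^ (α j / 2 - 1) * Real.Gamma (α j / 2)) with hDdef
  have hDpos : ∀ j, 0 < D j := by
    intro j
    have h1 := Real.Gamma_pos_of_pos (half_pos (hα j))
    have h2 : 0 < Real.sqrt (s2 j) := Real.sqrt_pos.2 (hs2 j)
    have h3 : 0 < (Real.sqrt (s2 j)) ^ (-(α j)) := Real.rpow_pos_of_pos h2 _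
    simp only [hDdef]
    positivity
  -- the mixture representation, almost everywhere
  have hmix : ∀ᵐ x ∂(gam ι), ∀ j,
      ∫⁻ c in Set.Ioi (0:ℝ), K_g (α j) (s2 j) c (dot (a j) x)
        = ENNReal.ofReal (D j) * ENNReal.ofReal (|dot (a j) x| ^ α j) := by
    rw [ae_all_iff]
    intro j
    filter_upwards [hD j] with x hx
    exact K_g_int (α j) (s2 j) _ (hs2 j) (hα j) hx hK1
  clear_value D
  -- the single factors
  have hone : ∀ j, ∫⁻ x, (∫⁻ c in Set.Ioi (0:ℝ), K_g (α j) (s2 j) c (dot (a j) x)) ∂(gam ι)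
      = ∫⁻ c in Set.Ioi (0:ℝ), ENNReal.ofReal (c ^ (α j - 1)) * ENNReal.ofReal (Real.exp (-c)) := by
    intro j
    rw [lintegral_lintegral_swap]
    · refine setLIntegral_congr_fun measurableSet_Ioi fun c hc => ?_
      simp only [K_g]
      rw [lintegral_const_mul _ (by unfold dot; fun_prop)]
      congr 1
      have h1 := K_exp_int (κ := Unit) (fun _ => a j) (fun _ => s2 j) (fun _ => (hs2 j).le)
        (fun _ => c)
      simp only [Finset.univ_unique, Finset.sum_singleton] at h1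
      rw [h1, hK0 j c (le_of_lt hc)]
    · have h1 : Measurable (fun p : (ι → ℝ) × ℝ => dot (a j) p.1) := by
        unfold dot
        fun_prop
      have h2 : Measurable (fun p : (ι → ℝ) × ℝ => p.2) := by fun_prop
      exact ((K_g_meas (α j) (s2 j)).comp (h2.prodMk h1)).aemeasurable
  have hone' : ∀ j, ∫⁻ c in Set.Ioi (0:ℝ),
      ENNReal.ofReal (c ^ (α j - 1)) * ENNReal.ofReal (Real.exp (-c))
      = ENNReal.ofReal (D j) * ENNReal.ofReal (∫ x, |dot (a j) x| ^ α j ∂(gam ι)) := by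
    intro j
    rw [← hone j, ofReal_integral_eq_lintegral_ofReal (hL1 j)
      (Filter.Eventually.of_forall fun x => Real.rpow_nonneg (abs_nonneg _) _),
      ← lintegral_const_mul' _ _ ENNReal.ofReal_ne_top]
    refine lintegral_congr_ae ?_
    filter_upwards [hmix] with x hx
    exact hx j
  -- the product
  have hprod : ENNReal.ofReal (∏ j, D j) *
      ENNReal.ofReal (∫ x, ∏ j, |dot (a j) x| ^ α j ∂(gam ι))
      = ∫⁻ c : κ → ℝ, (∫⁻ x, ∏ j, K_g (α j) (s2 j) (c j) (dot (a j) x) ∂(gam ι))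
          ∂(Measure.pi fun _ : κ => volume.restrict (Set.Ioi (0:ℝ))) := by
    rw [← K_ton, ofReal_integral_eq_lintegral_ofReal hL0
      (Filter.Eventually.of_forall fun x => Finset.prod_nonneg fun j _ =>
        Real.rpow_nonneg (abs_nonneg _) _),
      ← lintegral_const_mul' _ _ ENNReal.ofReal_ne_top]
    refine lintegral_congr_ae ?_
    filter_upwards [hmix] with x hx
    rw [Finset.prod_congr rfl fun j _ => hx j, Finset.prod_mul_distrib,
      ENNReal.ofReal_prod_of_nonneg (fun j _ => (hDpos j).le),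
      ENNReal.ofReal_prod_of_nonneg (fun j _ => Real.rpow_nonneg (abs_nonneg _) _)]
  have hlow : ∏ j, (ENNReal.ofReal (D j) *
        ENNReal.ofReal (∫ x, |dot (a j) x| ^ α j ∂(gam ι)))
      ≤ ENNReal.ofReal (∏ j, D j) *
        ENNReal.ofReal (∫ x, ∏ j, |dot (a j) x| ^ α j ∂(gam ι)) := by
    rw [hprod, Finset.prod_congr rfl fun j _ => (hone' j).symm]
    rw [← K_lintegral (fun _ : κ => volume.restrict (Set.Ioi (0:ℝ)))
      (fun j c => ENNReal.ofReal (c ^ (α j - 1)) * ENNReal.ofReal (Real.exp (-c)))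
      (fun j => by fun_prop)]
    have hae : ∀ᵐ c ∂(Measure.pi fun _ : κ => volume.restrict (Set.Ioi (0:ℝ))),
        ∀ j, 0 ≤ c j := by
      rw [ae_all_iff]
      intro j
      have h1 : ∀ᵐ y ∂(volume.restrict (Set.Ioi (0:ℝ))), 0 ≤ y :=
        (ae_restrict_iff' measurableSet_Ioi).2 (Filter.Eventually.of_forall fun y hy => le_of_lt hy)
      exact (Measure.tendsto_eval_ae_ae (μ := fun _ : κ => volume.restrict (Set.Ioi (0:ℝ)))
        (i := j)).eventually h1
    refine lintegral_mono_ae ?_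
    filter_upwards [hae] with c hc
    rw [Finset.prod_mul_distrib, ← ENNReal.ofReal_prod_of_nonneg (fun j _ => (Real.exp_pos _).le),
      ← Real.exp_sum, Finset.sum_neg_distrib]
    simp_rw [K_prod_eq]
    rw [lintegral_const_mul _ (by unfold dot; fun_prop),
      K_exp_int a s2 (fun j => (hs2 j).le) c]
    gcongr
    exact hJ c hc
  rw [Finset.prod_mul_distrib, ← ENNReal.ofReal_prod_of_nonneg (fun j _ => (hDpos j).le)] at hlow
  have hDD : 0 < ∏ j, D j := Finset.prod_pos fun j _ => hDpos j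
  have h4 := (ENNReal.mul_le_mul_iff_right (a := ENNReal.ofReal (∏ j, D j))
    (by simpa using hDD) ENNReal.ofReal_ne_top).1 hlow
  rw [← ENNReal.ofReal_prod_of_nonneg (fun j _ => integral_nonneg fun x =>
    Real.rpow_nonneg (abs_nonneg _) _)] at h4
  exact (ENNReal.ofReal_le_ofReal_iff (integral_nonneg fun x => Finset.prod_nonneg fun j _ =>
    Real.rpow_nonneg (abs_nonneg _) _)).1 h4

end GPI427
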