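import Pool.Agent.H427R2.GPI.Defs

set_option autoImplicit false

open MeasureTheory ProbabilityTheory

namespace GPI427

/-- K0: the single form case, `E exp(-c²|a|²/(2<a,x>²)) = exp(-c)` (from H0 with one form) -/
theorem K0 {ι : Type} [Fintype ι] (a : ι → ℝ) (ha : a ≠ 0) (c : ℝ) (hc : 0 ≤ c)
    (h0 : ∀ (u : Unit → ι → ℝ) (c : Unit → ℝ), (∀ j, u j ≠ 0) → (∀ j, 0 ≤ c j) →
      ∫ x, Real.exp (-(∑ i, Sv u c x i ^ 2) / 2) ∂(gam ι) = Real.exp (-∑ j, c j)) :
    ∫ x, Real.exp (-(c ^ 2 * (∑ i, a i ^ 2) / dot a x ^ 2) / 2) ∂(gam ι) = Real.exp (-c) := by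
  have h := h0 (fun _ => a) (fun _ => c) (fun _ => ha) (fun _ => hc)
  simp only [Finset.univ_unique, Finset.sum_singleton] at h
  rw [← h]
  refine integral_congr_ae (Filter.Eventually.of_forall fun x => ?_)
  have e : ∑ i, Sv (fun _ : Unit => a) (fun _ : Unit => c) x i ^ 2
      = c ^ 2 * (∑ i, a i ^ 2) / dot a x ^ 2 := by
    simp only [Sv, Finset.univ_unique, Finset.sum_singleton]
    rw [Finset.mul_sum, Finset.sum_div]
    refine Finset.sum_congr rfl fun i _ => ?_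
    ring
  simp only [e]

end GPI427
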