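import Mathlib
import Pool.Agent.H427R2.GPI.Defs

set_option autoImplicit false

open MeasureTheory ProbabilityTheory

namespace GPI427

theorem K1_exp (s y c : ℝ) : Real.exp (-(c ^ 2 * s ^ 2 / y ^ 2) / 2)
    = Real.exp (-(s ^ 2 / (2 * y ^ 2)) * c ^ (2 : ℝ)) := by
  congr 1
  rw [show c ^ (2 : ℝ) = c ^ 2 by exact Real.rpow_two c]
  rcases eq_or_ne y 0 with h | h
  · subst h; simp
  · field_simp

theorem K1_pow (α s y : ℝ) (hs : 0 < s) (hy : y ≠ 0) :
    (s ^ 2 / (2 * y ^ 2)) ^ (-α / 2) = (|y| / s) ^ α * 2 ^ (α / 2) := by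
  have hy' : 0 < |y| := abs_pos.mpr hy
  have h1 : s ^ 2 / (2 * y ^ 2) = ((|y| / s) ^ (2 : ℝ) * 2)⁻¹ := by
    rw [Real.rpow_two, div_pow, sq_abs]
    field_simp
  have h2 : (0 : ℝ) ≤ |y| / s := by positivity
  rw [h1, show -α / 2 = -(α / 2) by ring, Real.inv_rpow (by positivity),
    Real.rpow_neg (by positivity), inv_inv, Real.mul_rpow (by positivity) (by norm_num),
    ← Real.rpow_mul h2]
  congr 2
  ring

theorem K1 (α s y : ℝ) (hα : 0 < α) (hs : 0 < s) (hy : y ≠ 0) :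
    IntegrableOn (fun c : ℝ => c ^ (α - 1) * Real.exp (-(c ^ 2 * s ^ 2 / y ^ 2) / 2))
      (Set.Ioi 0) ∧
    ∫ c in Set.Ioi (0:ℝ), c ^ (α - 1) * Real.exp (-(c ^ 2 * s ^ 2 / y ^ 2) / 2)
      = (|y| / s) ^ α * (2 ^ (α / 2 - 1) * Real.Gamma (α / 2)) := by
  have hb : 0 < s ^ 2 / (2 * y ^ 2) := by
    have : 0 < y ^ 2 := by positivity
    positivity
  constructor
  · have h := integrableOn_rpow_mul_exp_neg_mul_rpow (p := 2) (s := α - 1)
      (b := s ^ 2 / (2 * y ^ 2)) (by linarith) (by norm_num) hb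
    refine h.congr_fun (fun c _ => ?_) measurableSet_Ioi
    simp only []
    rw [K1_exp s y c]
  · have h := integral_rpow_mul_exp_neg_mul_rpow (p := 2) (q := α - 1)
      (b := s ^ 2 / (2 * y ^ 2)) (by norm_num) (by linarith) hb
    calc ∫ c in Set.Ioi (0:ℝ), c ^ (α - 1) * Real.exp (-(c ^ 2 * s ^ 2 / y ^ 2) / 2)
        = ∫ c in Set.Ioi (0:ℝ), c ^ (α - 1) * Real.exp (-(s ^ 2 / (2 * y ^ 2)) * c ^ (2:ℝ)) := by
          refine setIntegral_congr_fun measurableSet_Ioi (fun c _ => ?_)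
          rw [K1_exp s y c]
      _ = _ := h
      _ = (|y| / s) ^ α * (2 ^ (α / 2 - 1) * Real.Gamma (α / 2)) := by
          rw [show -(α - 1 + 1) / 2 = -α / 2 by ring, show (α - 1 + 1) / 2 = α / 2 by ring,
            K1_pow α s y hs hy, Real.rpow_sub (by norm_num), Real.rpow_one]
          ring

end GPI427
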