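import Mathlib
import Pool.Agent.H427R2.GPI.Defs

set_option autoImplicit false

open MeasureTheory ProbabilityTheory

namespace GPI427

theorem L0_exp_abs : Integrable (fun x : ℝ => Real.exp |x|) (gaussianReal 0 1) := by
  have h1 : Integrable (fun x : ℝ => Real.exp (1 * x)) (gaussianReal 0 1) :=
    integrable_exp_mul_gaussianReal 1
  have h2 : Integrable (fun x : ℝ => Real.exp ((-1) * x)) (gaussianReal 0 1) :=
    integrable_exp_mul_gaussianReal (-1)
  refine (h1.add h2).mono' (by fun_prop) (Filter.Eventually.of_forall fun x => ?_)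
  rw [Real.norm_eq_abs, abs_of_pos (Real.exp_pos _), Pi.add_apply]
  rcases abs_cases x with ⟨h, _⟩ | ⟨h, _⟩
  · rw [h, one_mul]
    have := Real.exp_pos ((-1) * x)
    linarith
  · rw [h, neg_one_mul]
    have := Real.exp_pos (1 * x)
    linarith

theorem L0_exp (ι : Type) [Fintype ι] :
    Integrable (fun x : ι → ℝ => Real.exp (∑ i, |x i|)) (gam ι) := by
  have h : Integrable (fun x : ι → ℝ => ∏ i, Real.exp |x i|) (gam ι) :=
    Integrable.fintype_prod (f := fun _ (t : ℝ) => Real.exp |t|) fun _ => L0_exp_abs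
  simpa [Real.exp_sum] using h

theorem L0_rpow_le (β : ℝ) (hβ : 0 ≤ β) : ∃ C : ℝ, 0 ≤ C ∧ ∀ s : ℝ, 0 ≤ s →
    s ^ β ≤ C * Real.exp s := by
  obtain ⟨n, hn⟩ := exists_nat_ge β
  refine ⟨1 + n.factorial, by positivity, fun s hs => ?_⟩
  have h1 : s ^ n ≤ n.factorial * Real.exp s := by
    have := Real.pow_div_factorial_le_exp s hs n
    have hpos : (0 : ℝ) < n.factorial := by exact_mod_cast n.factorial_pos
    rw [div_le_iff₀ hpos] at this
    linarith
  have h2 : (1 : ℝ) ≤ Real.exp s := Real.one_le_exp hs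
  rcases le_total s 1 with h | h
  · have : s ^ β ≤ 1 := Real.rpow_le_one hs h hβ
    have h3 : 0 ≤ (n.factorial : ℝ) * Real.exp s := by positivity
    linarith
  · have : s ^ β ≤ s ^ (n : ℝ) := Real.rpow_le_rpow_of_exponent_le h hn
    rw [Real.rpow_natCast] at this
    linarith

/-- L0: integrability of products of powers of linear forms -/
theorem L0 {ι κ : Type} [Fintype ι] [Fintype κ] (a : κ → ι → ℝ) (α : κ → ℝ)
    (hα : ∀ j, 0 ≤ α j) :
    Integrable (fun x => ∏ j, |dot (a j) x| ^ α j) (gam ι) := by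
  obtain ⟨C, hC0, hC⟩ := L0_rpow_le (∑ j, α j) (Finset.sum_nonneg fun j _ => hα j)
  set A : κ → ℝ := fun j => ∑ i, |a j i| with hA
  have hA0 : ∀ j, 0 ≤ A j := fun j => Finset.sum_nonneg fun i _ => abs_nonneg _
  refine ((L0_exp ι).const_mul ((∏ j, A j ^ α j) * C)).mono' ?_
    (Filter.Eventually.of_forall fun x => ?_)
  · apply Measurable.aestronglyMeasurable
    unfold dot
    fun_prop
  · have hs : 0 ≤ ∑ i, |x i| := Finset.sum_nonneg fun i _ => abs_nonneg _
    have hd : ∀ j, |dot (a j) x| ≤ A j * ∑ i, |x i| := by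
      intro j
      calc |dot (a j) x| ≤ ∑ i, |a j i * x i| := Finset.abs_sum_le_sum_abs _ _
        _ = ∑ i, |a j i| * |x i| := by simp [abs_mul]
        _ ≤ ∑ i, |a j i| * ∑ k, |x k| := by
          apply Finset.sum_le_sum
          intro i hi
          exact mul_le_mul_of_nonneg_left
            (Finset.single_le_sum (f := fun k => |x k|) (fun k _ => abs_nonneg _) hi) (abs_nonneg _)
        _ = A j * ∑ i, |x i| := by rw [hA, Finset.sum_mul]
    rw [Real.norm_eq_abs, abs_of_nonneg (Finset.prod_nonneg fun j _ =>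
      Real.rpow_nonneg (abs_nonneg _) _)]
    calc ∏ j, |dot (a j) x| ^ α j ≤ ∏ j, (A j * ∑ i, |x i|) ^ α j :=
          Finset.prod_le_prod (fun j _ => Real.rpow_nonneg (abs_nonneg _) _)
            (fun j _ => Real.rpow_le_rpow (abs_nonneg _) (hd j) (hα j))
      _ = ∏ j, (A j ^ α j * (∑ i, |x i|) ^ α j) := by
          apply Finset.prod_congr rfl
          intro j _
          exact Real.mul_rpow (hA0 j) hs
      _ = (∏ j, A j ^ α j) * (∑ i, |x i|) ^ (∑ j, α j) := by
          rw [Finset.prod_mul_distrib, Real.rpow_sum_of_nonneg hs fun j _ => hα j]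
      _ ≤ (∏ j, A j ^ α j) * (C * Real.exp (∑ i, |x i|)) := by
          apply mul_le_mul_of_nonneg_left (hC _ hs)
          exact Finset.prod_nonneg fun j _ => Real.rpow_nonneg (hA0 j) _
      _ = (∏ j, A j ^ α j) * C * Real.exp (∑ i, |x i|) := by ring

end GPI427
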