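import Mathlib
import Pool.Agent.H427R2.GPI.Defs

set_option autoImplicit false

open MeasureTheory ProbabilityTheory

namespace GPI427

theorem LM_form {n : ℕ} (l : (Fin n → ℝ) →ₗ[ℝ] ℝ) (x : Fin n → ℝ) :
    l x = dot (fun i => l (Pi.single i 1)) x := by
  classical
  rw [LinearMap.pi_apply_eq_sum_univ l x, dot]
  apply Finset.sum_congr rfl
  intro i _
  rw [smul_eq_mul, mul_comm]
  congr 2
  ext j
  simp [Pi.single_apply, eq_comm]

/-- L: final form -/
theorem L (hK : ∀ (κ : Type) [Fintype κ] (n : ℕ) (a : κ → Fin n → ℝ), (∀ j, a j ≠ 0) →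
      ∀ α : κ → ℝ, (∀ j, 0 < α j) → ∏ j, ∫ x, |dot (a j) x| ^ α j ∂(gam (Fin n)) ≤
        ∫ x, ∏ j, |dot (a j) x| ^ α j ∂(gam (Fin n)))
    (n d : ℕ) (l : Fin d → ((Fin n → ℝ) →ₗ[ℝ] ℝ)) (α : Fin d → ℝ) (hα : ∀ j, 0 ≤ α j) :
    ∏ j, ∫ x, |l j x| ^ α j ∂(Measure.pi fun _ : Fin n => gaussianReal 0 1) ≤
      ∫ x, ∏ j, |l j x| ^ α j ∂(Measure.pi fun _ : Fin n => gaussianReal 0 1) := by
  classical
  by_cases h : ∃ j, 0 < α j ∧ l j = 0
  · obtain ⟨j, hj, hl⟩ := h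
    have h0 : ∏ j, ∫ x, |l j x| ^ α j ∂(Measure.pi fun _ : Fin n => gaussianReal 0 1) = 0 := by
      apply Finset.prod_eq_zero (Finset.mem_univ j)
      simp [hl, Real.zero_rpow hj.ne']
    rw [h0]
    exact integral_nonneg fun x => Finset.prod_nonneg fun j _ => Real.rpow_nonneg (abs_nonneg _) _
  · push Not at h
    have hprod : ∀ f : Fin d → ℝ, (∀ j, α j = 0 → f j = 1) →
        ∏ j, f j = ∏ j : {j // 0 < α j}, f j := by
      intro f hf
      rw [← Finset.prod_subtype (Finset.univ.filter fun j => 0 < α j) (by simp) f]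
      symm
      apply Finset.prod_filter_of_ne
      intro j _ hj
      rcases (hα j).lt_or_eq with h | h
      · exact h
      · exact absurd (hf j h.symm) hj
    have hcore := hK {j // 0 < α j} n (fun j i => l j (Pi.single i 1)) (fun j hj => by
      apply h j j.2
      ext x
      simpa using congrFun hj x) (fun j => α j) (fun j => j.2)
    rw [hprod (fun j => ∫ x, |l j x| ^ α j ∂(Measure.pi fun _ : Fin n => gaussianReal 0 1))
      (fun j hj => by simp [hj])]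
    have hR : (fun x : Fin n → ℝ => ∏ j, |l j x| ^ α j)
        = fun x => ∏ j : {j // 0 < α j}, |l j x| ^ α (j : Fin d) := by
      ext x
      exact hprod (fun j => |l j x| ^ α j) (fun j hj => by simp [hj])
    rw [hR]
    simp only [← LM_form] at hcore
    exact hcore

/-- M: even powers -/
theorem M (hL : ∀ (n d : ℕ) (l : Fin d → ((Fin n → ℝ) →ₗ[ℝ] ℝ)) (α : Fin d → ℝ),
      (∀ j, 0 ≤ α j) →
      ∏ j, ∫ x, |l j x| ^ α j ∂(Measure.pi fun _ : Fin n => gaussianReal 0 1) ≤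
      ∫ x, ∏ j, |l j x| ^ α j ∂(Measure.pi fun _ : Fin n => gaussianReal 0 1))
    (n d : ℕ) (k : Fin d → ℕ) (l : Fin d → ((Fin n → ℝ) →ₗ[ℝ] ℝ)) :
    (∏ i, ∫ x, (l i x) ^ (2 * k i) ∂(Measure.pi fun _ : Fin n => gaussianReal 0 1))
        ≤ ∫ x, (∏ i, (l i x) ^ (2 * k i)) ∂(Measure.pi fun _ : Fin n => gaussianReal 0 1) := by
  have h := hL n d l (fun i => ((2 * k i : ℕ) : ℝ)) (fun i => Nat.cast_nonneg _)
  have e : ∀ (i : Fin d) (x : Fin n → ℝ), |l i x| ^ ((2 * k i : ℕ) : ℝ) = (l i x) ^ (2 * k i) := by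
    intro i x
    rw [Real.rpow_natCast, ← abs_pow, abs_of_nonneg (by rw [pow_mul]; positivity)]
  simpa only [e] using h

end GPI427
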