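import Pool.Agent.H427R2.GPI.T_H
import Pool.Agent.H427R2.GPI.T_I
import Pool.Agent.H427R2.GPI.T_J
import Pool.Agent.H427R2.GPI.T_K
import Pool.Agent.H427R2.GPI.T_K0
import Pool.Agent.H427R2.GPI.T_K1
import Pool.Agent.H427R2.GPI.T_L0
import Pool.Agent.H427R2.GPI.T_LM

set_option autoImplicit false

open MeasureTheory ProbabilityTheory

namespace GPI427

/-- main inequality for arbitrary nonzero forms -/
theorem main_exp {ι κ : Type} [Fintype ι] [Fintype κ] (a : κ → ι → ℝ) (ha : ∀ j, a j ≠ 0)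
    (c : κ → ℝ) (hc : ∀ j, 0 ≤ c j) :
    Real.exp (-∑ j, c j) ≤
      ∫ x, Real.exp (-(∑ j, c j ^ 2 * (∑ i, a j i ^ 2) / dot (a j) x ^ 2) / 2) ∂(gam ι) := by
  classical
  refine J (fun b hb => D b hb) (fun u c hc δ hδ hue => ?_) a ha c hc
  have hu : ∀ j, u j ≠ 0 := fun j h => hδ (by
    have := hue j j
    rw [h] at this
    simpa using this.symm)
  exact I1 u c hc Sum.inr Sum.inr_injective δ hδ hue (H0 u hu c hc)
    (fun k l hkl h => H1 u hu c hc k l hkl h)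

theorem main_K (κ : Type) [Fintype κ] (n : ℕ) (a : κ → Fin n → ℝ) (ha : ∀ j, a j ≠ 0)
    (α : κ → ℝ) (hα : ∀ j, 0 < α j) :
    ∏ j, ∫ x, |dot (a j) x| ^ α j ∂(gam (Fin n)) ≤
        ∫ x, ∏ j, |dot (a j) x| ^ α j ∂(gam (Fin n)) := by
  refine K a ha α hα (fun c hc => main_exp a ha c hc)
    (fun j c hc => K0 (a j) (ha j) c hc (fun u c hu hc => H0 u hu c hc))
    K1 (fun j => D (a j) (ha j)) (L0 a α fun j => (hα j).le) (fun j => ?_)
  have h := L0 (fun _ : Unit => a j) (fun _ => α j) (fun _ => (hα j).le)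
  simpa using h

/-- The Gaussian product inequality for all nonnegative real exponents. -/
theorem gpi (n d : ℕ) (l : Fin d → ((Fin n → ℝ) →ₗ[ℝ] ℝ)) (α : Fin d → ℝ)
    (hα : ∀ j, 0 ≤ α j) :
    ∏ j, ∫ x, |l j x| ^ α j ∂(Measure.pi fun _ : Fin n => gaussianReal 0 1) ≤
      ∫ x, ∏ j, |l j x| ^ α j ∂(Measure.pi fun _ : Fin n => gaussianReal 0 1) :=
  L main_K n d l α hα

/-- The Gaussian product inequality for even powers. -/
theorem gpi_even (n d : ℕ) (k : Fin d → ℕ) (l : Fin d → ((Fin n → ℝ) →ₗ[ℝ] ℝ)) :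
    (∏ i, ∫ x, (l i x) ^ (2 * k i) ∂(Measure.pi fun _ : Fin n => gaussianReal 0 1))
        ≤ ∫ x, (∏ i, (l i x) ^ (2 * k i)) ∂(Measure.pi fun _ : Fin n => gaussianReal 0 1) :=
  M gpi n d k l

end GPI427
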