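import Pool.Agent.H427R2.GPI.Defs

set_option autoImplicit false

open MeasureTheory ProbabilityTheory

namespace GPI427.Stub

/-- A0 -/
theorem A0 {κ : Type} [Fintype κ] (c : κ → ℝ) (hc : ∀ j, 0 ≤ c j) (ω : κ → ℂ)
    (hω : ∀ j, ‖ω j‖ = 1) :
    ∫ θ in (0:ℝ)..(2 * Real.pi), Ff c ω (Complex.exp (-(2 * θ : ℝ) * Complex.I))
      = (2 * Real.pi : ℝ) * (Real.exp (-∑ j, c j) : ℂ) := by sorry

/-- A1 -/
theorem A1 {κ : Type} [Fintype κ] (c : κ → ℝ) (hc : ∀ j, 0 ≤ c j) (ω : κ → ℂ)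
    (hω : ∀ j, ‖ω j‖ = 1) (α β : ℂ) :
    ∫ θ in (0:ℝ)..(2 * Real.pi), Ff c ω (Complex.exp (-(2 * θ : ℝ) * Complex.I)) *
        ((((Complex.exp (-(θ : ℝ) * Complex.I)) * α).im *
          ((Complex.exp (-(θ : ℝ) * Complex.I)) * β).im : ℝ) : ℂ)
      = (2 * Real.pi : ℝ) * (Real.exp (-∑ j, c j) : ℂ) *
        (1 / 2 * ((α * (starRingEnd ℂ) β).re : ℂ)
          - 1 / 2 * (starRingEnd ℂ) (α * β) * ∑ j, (c j : ℂ) * ω j) := by sorry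

/-- B: rotation average -/
theorem B {ι : Type} [Fintype ι] (G : (ι → ℝ) × (ι → ℝ) → ℂ) (hGm : Measurable G)
    (hG : Integrable G ((gam ι).prod (gam ι))) :
    ((2 * Real.pi : ℝ) : ℂ) * ∫ p, G p ∂((gam ι).prod (gam ι))
      = ∫ p, (∫ θ in (0:ℝ)..(2 * Real.pi), G (rot θ p)) ∂((gam ι).prod (gam ι)) := by sorry

/-- C1 -/
theorem C1 {ι κ : Type} [Fintype ι] [Fintype κ] (u : κ → ι → ℝ) (c : κ → ℝ)
    (p : (ι → ℝ) × (ι → ℝ)) (hp : ∀ j, dot (u j) p.1 ≠ 0) (θ : ℝ) :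
    Hf u c (rot θ p) = Ff c (om u p) (Complex.exp (-(2 * θ : ℝ) * Complex.I)) := by sorry

/-- C2 -/
theorem C2 {ι κ : Type} [Fintype ι] (u : κ → ι → ℝ)
    (p : (ι → ℝ) × (ι → ℝ)) (j : κ) (hp : dot (u j) p.1 ≠ 0) : ‖om u p j‖ = 1 := by sorry

/-- C3 -/
theorem C3 {ι : Type} (p : (ι → ℝ) × (ι → ℝ)) (k : ι) (θ : ℝ) :
    (rot θ p).2 k = (Complex.exp (-(θ : ℝ) * Complex.I) * al p k).im := by sorry

/-- D: a nonzero linear form vanishes almost nowhere -/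
theorem D {ι : Type} [Fintype ι] (a : ι → ℝ) (ha : a ≠ 0) :
    ∀ᵐ x ∂(gam ι), dot a x ≠ 0 := by sorry

/-- E1 -/
theorem E1 {ι : Type} [Fintype ι] (k l : ι) (hkl : k ≠ l) :
    ∫ p, ((al p k * (starRingEnd ℂ) (al p l)).re : ℂ) ∂((gam ι).prod (gam ι)) = 0 := by sorry

/-- E2 -/
theorem E2 {ι κ : Type} [Fintype ι] (u : κ → ι → ℝ) (j : κ) (k l : ι) (hkl : k ≠ l)
    (h : u j k = 0 ∨ u j l = 0) :
    ∫ p, (starRingEnd ℂ) (al p k * al p l) * om u p j ∂((gam ι).prod (gam ι)) = 0 := by sorry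

/-- G0 -/
theorem G0 {ι : Type} [Fintype ι] (s : ι → ℝ) :
    ∫ x, Complex.exp (Complex.I * ((dot s x : ℝ) : ℂ)) ∂(gam ι)
      = (Real.exp (-(∑ i, s i ^ 2) / 2) : ℂ) := by sorry

/-- G1 -/
theorem G1 {ι : Type} [Fintype ι] (s : ι → ℝ) (k l : ι) (hkl : k ≠ l) :
    ∫ x, Complex.exp (Complex.I * ((dot s x : ℝ) : ℂ)) * ((x k * x l : ℝ) : ℂ) ∂(gam ι)
      = -((s k * s l * Real.exp (-(∑ i, s i ^ 2) / 2) : ℝ) : ℂ) := by sorry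

/-- H0 (uses A0 B C1 C2 D G0) -/
theorem H0 {ι κ : Type} [Fintype ι] [Fintype κ] (u : κ → ι → ℝ) (hu : ∀ j, u j ≠ 0)
    (c : κ → ℝ) (hc : ∀ j, 0 ≤ c j) :
    ∫ x, Real.exp (-(∑ i, Sv u c x i ^ 2) / 2) ∂(gam ι) = Real.exp (-∑ j, c j) := by sorry

/-- H1 (uses A1 B C1 C2 C3 D E1 E2 G1) -/
theorem H1 {ι κ : Type} [Fintype ι] [Fintype κ] (u : κ → ι → ℝ) (hu : ∀ j, u j ≠ 0)
    (c : κ → ℝ) (hc : ∀ j, 0 ≤ c j) (k l : ι) (hkl : k ≠ l)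
    (h : ∀ j, u j k = 0 ∨ u j l = 0) :
    ∫ x, Sv u c x k * Sv u c x l * Real.exp (-(∑ i, Sv u c x i ^ 2) / 2) ∂(gam ι) = 0 := by
  sorry

/-- I: main inequality in the nondegenerate case (uses H0 H1 only) -/
theorem I1 {ι κ : Type} [Fintype ι] [Fintype κ] [DecidableEq κ] (u : κ → ι → ℝ)
    (c : κ → ℝ) (hc : ∀ j, 0 ≤ c j) (e : κ → ι) (he : Function.Injective e) (δ : ℝ)
    (hδ : δ ≠ 0) (hue : ∀ j j', u j (e j') = if j = j' then δ else 0)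
    (h0 : ∫ x, Real.exp (-(∑ i, Sv u c x i ^ 2) / 2) ∂(gam ι) = Real.exp (-∑ j, c j))
    (h1 : ∀ k l : ι, k ≠ l → (∀ j, u j k = 0 ∨ u j l = 0) →
      ∫ x, Sv u c x k * Sv u c x l * Real.exp (-(∑ i, Sv u c x i ^ 2) / 2) ∂(gam ι) = 0) :
    Real.exp (-∑ j, c j) ≤
      ∫ x, Real.exp (-(∑ j, c j ^ 2 * (∑ i, u j i ^ 2) / dot (u j) x ^ 2) / 2) ∂(gam ι) := by
  sorry

/-- J: main inequality for arbitrary nonzero linear forms (limit δ → 0 of I1 on `ι ⊕ κ`) -/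
theorem J {ι κ : Type} [Fintype ι] [Fintype κ] [DecidableEq κ]
    (hI : ∀ (u : κ → ι ⊕ κ → ℝ) (c : κ → ℝ), (∀ j, 0 ≤ c j) → ∀ δ : ℝ, δ ≠ 0 →
      (∀ j j', u j (Sum.inr j') = if j = j' then δ else 0) →
      Real.exp (-∑ j, c j) ≤ ∫ x, Real.exp (-(∑ j, c j ^ 2 * (∑ i, u j i ^ 2) /
        dot (u j) x ^ 2) / 2) ∂(gam (ι ⊕ κ)))
    (a : κ → ι → ℝ) (ha : ∀ j, a j ≠ 0) (c : κ → ℝ) (hc : ∀ j, 0 ≤ c j) :
    Real.exp (-∑ j, c j) ≤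
      ∫ x, Real.exp (-(∑ j, c j ^ 2 * (∑ i, a j i ^ 2) / dot (a j) x ^ 2) / 2) ∂(gam ι) := by
  sorry

/-- K0: the single form case, `E exp(-c²|a|²/(2<a,x>²)) = exp(-c)` (from H0 with one form) -/
theorem K0 {ι : Type} [Fintype ι] (a : ι → ℝ) (ha : a ≠ 0) (c : ℝ) (hc : 0 ≤ c)
    (h0 : ∀ (u : Unit → ι → ℝ) (c : Unit → ℝ), (∀ j, u j ≠ 0) → (∀ j, 0 ≤ c j) →
      ∫ x, Real.exp (-(∑ i, Sv u c x i ^ 2) / 2) ∂(gam ι) = Real.exp (-∑ j, c j)) :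
    ∫ x, Real.exp (-(c ^ 2 * (∑ i, a i ^ 2) / dot a x ^ 2) / 2) ∂(gam ι) = Real.exp (-c) := by
  sorry

/-- K1: `|y|^α` as a mixture: for `y ≠ 0`, `α > 0`, `s > 0`
`∫_0^∞ c^(α-1) exp(-c² s²/(2 y²)) dc = (|y|/s)^α * ∫_0^∞ c^(α-1) exp(-c²/2) dc` -/
theorem K1 (α s y : ℝ) (hα : 0 < α) (hs : 0 < s) (hy : y ≠ 0) :
    IntegrableOn (fun c : ℝ => c ^ (α - 1) * Real.exp (-(c ^ 2 * s ^ 2 / y ^ 2) / 2))
      (Set.Ioi 0) ∧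
    ∫ c in Set.Ioi (0:ℝ), c ^ (α - 1) * Real.exp (-(c ^ 2 * s ^ 2 / y ^ 2) / 2)
      = (|y| / s) ^ α * (2 ^ (α / 2 - 1) * Real.Gamma (α / 2)) := by sorry

/-- K: product inequality for positive real exponents, nonzero forms, in `lintegral` form -/
theorem K {ι κ : Type} [Fintype ι] [Fintype κ] (a : κ → ι → ℝ) (ha : ∀ j, a j ≠ 0)
    (α : κ → ℝ) (hα : ∀ j, 0 < α j)
    (hJ : ∀ c : κ → ℝ, (∀ j, 0 ≤ c j) → Real.exp (-∑ j, c j) ≤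
      ∫ x, Real.exp (-(∑ j, c j ^ 2 * (∑ i, a j i ^ 2) / dot (a j) x ^ 2) / 2) ∂(gam ι))
    (hK0 : ∀ j, ∀ c : ℝ, 0 ≤ c → ∫ x, Real.exp (-(c ^ 2 * (∑ i, a j i ^ 2) /
      dot (a j) x ^ 2) / 2) ∂(gam ι) = Real.exp (-c))
    (hK1 : ∀ α s y : ℝ, 0 < α → 0 < s → y ≠ 0 →
      IntegrableOn (fun c : ℝ => c ^ (α - 1) * Real.exp (-(c ^ 2 * s ^ 2 / y ^ 2) / 2))
        (Set.Ioi 0) ∧
      ∫ c in Set.Ioi (0:ℝ), c ^ (α - 1) * Real.exp (-(c ^ 2 * s ^ 2 / y ^ 2) / 2)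
        = (|y| / s) ^ α * (2 ^ (α / 2 - 1) * Real.Gamma (α / 2)))
    (hD : ∀ j, ∀ᵐ x ∂(gam ι), dot (a j) x ≠ 0)
    (hL0 : Integrable (fun x => ∏ j, |dot (a j) x| ^ α j) (gam ι))
    (hL1 : ∀ j, Integrable (fun x => |dot (a j) x| ^ α j) (gam ι)) :
    ∏ j, ∫ x, |dot (a j) x| ^ α j ∂(gam ι) ≤ ∫ x, ∏ j, |dot (a j) x| ^ α j ∂(gam ι) := by
  sorry

/-- L0: integrability of products of powers of linear forms -/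
theorem L0 {ι κ : Type} [Fintype ι] [Fintype κ] (a : κ → ι → ℝ) (α : κ → ℝ)
    (hα : ∀ j, 0 ≤ α j) :
    Integrable (fun x => ∏ j, |dot (a j) x| ^ α j) (gam ι) := by sorry

/-- L: final form -/
theorem L (hK : ∀ (κ : Type) [Fintype κ] (n : ℕ) (a : κ → Fin n → ℝ), (∀ j, a j ≠ 0) →
      ∀ α : κ → ℝ, (∀ j, 0 < α j) → ∏ j, ∫ x, |dot (a j) x| ^ α j ∂(gam (Fin n)) ≤
        ∫ x, ∏ j, |dot (a j) x| ^ α j ∂(gam (Fin n)))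
    (n d : ℕ) (l : Fin d → ((Fin n → ℝ) →ₗ[ℝ] ℝ)) (α : Fin d → ℝ) (hα : ∀ j, 0 ≤ α j) :
    ∏ j, ∫ x, |l j x| ^ α j ∂(Measure.pi fun _ : Fin n => gaussianReal 0 1) ≤
      ∫ x, ∏ j, |l j x| ^ α j ∂(Measure.pi fun _ : Fin n => gaussianReal 0 1) := by sorry

/-- M: even powers -/
theorem M (hL : ∀ (n d : ℕ) (l : Fin d → ((Fin n → ℝ) →ₗ[ℝ] ℝ)) (α : Fin d → ℝ),
      (∀ j, 0 ≤ α j) →
      ∏ j, ∫ x, |l j x| ^ α j ∂(Measure.pi fun _ : Fin n => gaussianReal 0 1) ≤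
      ∫ x, ∏ j, |l j x| ^ α j ∂(Measure.pi fun _ : Fin n => gaussianReal 0 1))
    (n d : ℕ) (k : Fin d → ℕ) (l : Fin d → ((Fin n → ℝ) →ₗ[ℝ] ℝ)) :
    (∏ i, ∫ x, (l i x) ^ (2 * k i) ∂(Measure.pi fun _ : Fin n => gaussianReal 0 1))
        ≤ ∫ x, (∏ i, (l i x) ^ (2 * k i)) ∂(Measure.pi fun _ : Fin n => gaussianReal 0 1) := by
  sorry

end GPI427.Stub
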