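import Pool.Agent.H427R2.GPI.Defs

/-!
# Gaussian product inequality: integrals of the bounded analytic function over the circle
-/

set_option autoImplicit false

open MeasureTheory ProbabilityTheory Filter Topology

namespace GPI427

namespace TA

theorem norm_e (θ : ℝ) : ‖Complex.exp (-(2 * θ : ℝ) * Complex.I)‖ = 1 := by
  rw [← Complex.ofReal_neg, Complex.norm_exp_ofReal_mul_I]

theorem cont_e : Continuous fun θ : ℝ => Complex.exp (-(2 * θ : ℝ) * Complex.I) := by
  fun_prop

/-- mean value property along `θ ↦ r e^{-2iθ}` -/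
theorem mv {G : ℂ → ℂ} (hG : DifferentiableOn ℂ G (Metric.ball 0 1)) {r : ℝ} (h0 : 0 ≤ r)
    (h1 : r < 1) :
    ∫ θ in (0:ℝ)..(2 * Real.pi), G (r * Complex.exp (-(2 * θ : ℝ) * Complex.I))
      = (2 * Real.pi : ℝ) * G 0 := by
  have habs : |r| = r := abs_of_nonneg h0
  have hsub : Metric.closedBall (0 : ℂ) |r| ⊆ Metric.ball 0 1 := by
    rw [habs]; exact Metric.closedBall_subset_ball h1
  have hav : Real.circleAverage G 0 r = G 0 :=
    (hG.diffContOnCl_ball hsub).circleAverage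
  rw [Real.circleAverage_def] at hav
  set h : ℝ → ℂ := fun s => G (circleMap 0 r s) with hh
  have hmem : ∀ s, circleMap 0 r s ∈ Metric.ball (0 : ℂ) 1 := by
    intro s
    rw [mem_ball_zero_iff, norm_circleMap_zero, habs]
    exact h1
  have hcont : Continuous h := hG.continuousOn.comp_continuous (continuous_circleMap 0 r) hmem
  have hper : Function.Periodic h (2 * Real.pi) := by
    intro s
    show G (circleMap 0 r (s + 2 * Real.pi)) = G (circleMap 0 r s)
    rw [periodic_circleMap 0 r s]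
  have e1 : ∀ θ : ℝ, G (r * Complex.exp (-(2 * θ : ℝ) * Complex.I)) = h (-2 * θ) := by
    intro θ
    show _ = G (circleMap 0 r (-2 * θ))
    unfold circleMap
    rw [zero_add]
    congr 3
    push_cast
    ring
  have e2 : ∫ θ in (0:ℝ)..(2 * Real.pi), h (-2 * θ) = ∫ s in (0:ℝ)..(2 * Real.pi), h s := by
    rw [intervalIntegral.integral_comp_mul_left h (by norm_num : (-2 : ℝ) ≠ 0)]
    have e3 : (-2 : ℝ) * (2 * Real.pi) = 0 + (-2 : ℤ) • (2 * Real.pi) := by
      rw [zero_add, zsmul_eq_mul]; norm_num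
    rw [mul_zero, e3, hper.intervalIntegral_add_zsmul_eq (-2) 0
      (fun _ _ => hcont.intervalIntegrable _ _), zero_add, zsmul_eq_mul, Complex.real_smul,
      ← mul_assoc]
    push_cast
    norm_num
  have e4 : ∫ s in (0:ℝ)..(2 * Real.pi), h s = (2 * Real.pi : ℝ) * G 0 := by
    rw [← hav, Complex.real_smul, ← mul_assoc, ← Complex.ofReal_mul, mul_inv_cancel₀
      (by positivity), Complex.ofReal_one, one_mul]
  rw [← e4, ← e2]
  exact intervalIntegral.integral_congr fun θ _ => e1 θ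

/-- the mean value property for bounded analytic functions which are continuous at almost all
points of the boundary -/
theorem gen {G : ℂ → ℂ} {M : ℝ} (hG : DifferentiableOn ℂ G (Metric.ball 0 1))
    (hM : ∀ v : ℂ, 1 / 2 ≤ ‖v‖ → ‖v‖ ≤ 1 → ‖G v‖ ≤ M)
    (hc : ∀ᵐ θ : ℝ, ContinuousAt G (Complex.exp (-(2 * θ : ℝ) * Complex.I))) :
    ∫ θ in (0:ℝ)..(2 * Real.pi), G (Complex.exp (-(2 * θ : ℝ) * Complex.I))
      = (2 * Real.pi : ℝ) * G 0 := by
  set r : ℕ → ℝ := fun n => 1 - 1 / 2 * (1 / ((n : ℝ) + 1)) with hr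
  have hn : ∀ n : ℕ, 0 < 1 / ((n : ℝ) + 1) ∧ 1 / ((n : ℝ) + 1) ≤ 1 := by
    intro n
    have h1 : (0 : ℝ) < (n : ℝ) + 1 := by positivity
    refine ⟨by positivity, ?_⟩
    rw [div_le_one h1]
    have : (0 : ℝ) ≤ n := Nat.cast_nonneg n
    linarith
  have hr0 : ∀ n, 1 / 2 ≤ r n := by
    intro n
    have := (hn n).2
    simp only [hr]
    linarith
  have hr1 : ∀ n, r n < 1 := by
    intro n
    have := (hn n).1
    simp only [hr]
    linarith
  have hlim : Tendsto r atTop (𝓝 1) := by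
    have h1 : Tendsto (fun n : ℕ => 1 - 1 / 2 * (1 / ((n : ℝ) + 1))) atTop
        (𝓝 (1 - 1 / 2 * 0)) :=
      tendsto_const_nhds.sub (tendsto_one_div_add_atTop_nhds_zero_nat.const_mul _)
    rw [mul_zero, sub_zero] at h1
    exact h1
  have hnorm : ∀ n (θ : ℝ), ‖((r n : ℝ) : ℂ) * Complex.exp (-(2 * θ : ℝ) * Complex.I)‖ = r n := by
    intro n θ
    rw [norm_mul, norm_e, mul_one, Complex.norm_real, Real.norm_eq_abs,
      abs_of_nonneg (by linarith [hr0 n])]
  have T1 : Tendsto (fun n => ∫ θ in (0:ℝ)..(2 * Real.pi),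
      G ((r n : ℝ) * Complex.exp (-(2 * θ : ℝ) * Complex.I))) atTop
      (𝓝 (∫ θ in (0:ℝ)..(2 * Real.pi), G (Complex.exp (-(2 * θ : ℝ) * Complex.I)))) := by
    apply intervalIntegral.tendsto_integral_filter_of_dominated_convergence (fun _ => M)
    · refine Eventually.of_forall fun n => ?_
      apply Continuous.aestronglyMeasurable
      apply hG.continuousOn.comp_continuous (continuous_const.mul cont_e)
      intro θ
      rw [mem_ball_zero_iff]
      exact (hnorm n θ).trans_lt (hr1 n)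
    · refine Eventually.of_forall fun n => Eventually.of_forall fun θ _ => ?_
      apply hM
      · rw [hnorm]; exact hr0 n
      · rw [hnorm]; exact (hr1 n).le
    · exact intervalIntegrable_const
    · filter_upwards [hc] with θ hθ _
      apply hθ.tendsto.comp
      have h2 : Tendsto (fun n => ((r n : ℝ) : ℂ) * Complex.exp (-(2 * θ : ℝ) * Complex.I)) atTop
          (𝓝 (((1 : ℝ) : ℂ) * Complex.exp (-(2 * θ : ℝ) * Complex.I))) :=
        ((Complex.continuous_ofReal.tendsto 1).comp hlim).mul_const _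
      rw [Complex.ofReal_one, one_mul] at h2
      exact h2
  have T2 : ∀ n, ∫ θ in (0:ℝ)..(2 * Real.pi),
      G ((r n : ℝ) * Complex.exp (-(2 * θ : ℝ) * Complex.I)) = (2 * Real.pi : ℝ) * G 0 :=
    fun n => mv hG (by linarith [hr0 n]) (hr1 n)
  simp only [T2] at T1
  exact (tendsto_nhds_unique T1 tendsto_const_nhds)

variable {κ : Type} [Fintype κ]

theorem null (ω : κ → ℂ) : ∀ᵐ θ : ℝ, ∀ j, 1 + ω j * Complex.exp (-(2 * θ : ℝ) * Complex.I) ≠ 0 := by
  rw [ae_all_iff]
  intro j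
  rw [ae_iff]
  apply Set.Countable.measure_zero
  by_cases hne : ({θ : ℝ | ¬ (1 + ω j * Complex.exp (-(2 * θ : ℝ) * Complex.I) ≠ 0)}).Nonempty
  · obtain ⟨θ0, h0⟩ := hne
    apply (Set.countable_range (fun n : ℤ => θ0 - n * Real.pi)).mono
    intro θ hθ
    rw [Set.mem_setOf_eq, not_not] at h0 hθ
    have hω : ω j ≠ 0 := by
      intro h
      rw [h, zero_mul, add_zero] at h0
      exact one_ne_zero h0
    have h1 : Complex.exp (-(2 * θ : ℝ) * Complex.I) = Complex.exp (-(2 * θ0 : ℝ) * Complex.I) := by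
      apply mul_left_cancel₀ hω
      linear_combination hθ - h0
    rw [Complex.exp_eq_exp_iff_exists_int] at h1
    obtain ⟨n, hn⟩ := h1
    refine ⟨n, ?_⟩
    have h2 := congrArg Complex.im hn
    simp at h2
    show θ0 - n * Real.pi = θ
    linarith
  · rw [Set.not_nonempty_iff_eq_empty] at hne
    rw [hne]
    exact Set.countable_empty

theorem hasDeriv (c : κ → ℝ) (ω : κ → ℂ) {v : ℂ} (h : ∀ j, 1 + ω j * v ≠ 0) :
    HasDerivAt (Ff c ω)
      (Ff c ω v * (-∑ j, (c j : ℂ) * (-(2 * ω j) / (1 + ω j * v) ^ 2))) v := by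
  unfold Ff
  apply HasDerivAt.cexp
  apply HasDerivAt.fun_neg
  apply HasDerivAt.fun_sum
  intro j _
  apply HasDerivAt.const_mul
  have h1 : HasDerivAt (fun v : ℂ => ω j * v) (ω j) v := by
    simpa using (hasDerivAt_id v).const_mul (ω j)
  have h2 := (h1.const_sub 1).fun_div (h1.const_add 1) (h j)
  refine h2.congr_deriv ?_
  congr 1
  ring

theorem ball_ne {ω : κ → ℂ} (hω : ∀ j, ‖ω j‖ = 1) {v : ℂ} (hv : ‖v‖ < 1) (j : κ) :
    1 + ω j * v ≠ 0 := by
  intro h
  have h1 : ω j * v = -1 := by linear_combination h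
  have h2 : ‖ω j * v‖ = 1 := by rw [h1]; simp
  rw [norm_mul, hω, one_mul] at h2
  linarith

theorem diff_ball (c : κ → ℝ) {ω : κ → ℂ} (hω : ∀ j, ‖ω j‖ = 1) :
    DifferentiableOn ℂ (Ff c ω) (Metric.ball 0 1) := by
  intro v hv
  rw [mem_ball_zero_iff] at hv
  exact (hasDeriv c ω (ball_ne hω hv)).differentiableAt.differentiableWithinAt

theorem cont_ae (c : κ → ℝ) (ω : κ → ℂ) :
    ∀ᵐ θ : ℝ, ContinuousAt (Ff c ω) (Complex.exp (-(2 * θ : ℝ) * Complex.I)) := by
  filter_upwards [null ω] with θ hθ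
  exact (hasDeriv c ω hθ).continuousAt

theorem re_nonneg {z : ℂ} (hz : ‖z‖ ≤ 1) : 0 ≤ ((1 - z) / (1 + z)).re := by
  have h1 : z.re * z.re + z.im * z.im ≤ 1 := by
    have h2 : Complex.normSq z ≤ 1 := by
      rw [Complex.normSq_eq_norm_sq]
      exact pow_le_one₀ (norm_nonneg _) hz
    rw [Complex.normSq_apply] at h2
    exact h2
  rw [Complex.div_re, ← add_div]
  apply div_nonneg _ (Complex.normSq_nonneg _)
  simp only [Complex.sub_re, Complex.one_re, Complex.add_re, Complex.sub_im, Complex.one_im,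
    Complex.add_im]
  nlinarith

theorem bound {c : κ → ℝ} (hc : ∀ j, 0 ≤ c j) {ω : κ → ℂ} (hω : ∀ j, ‖ω j‖ = 1) {v : ℂ}
    (hv : ‖v‖ ≤ 1) : ‖Ff c ω v‖ ≤ 1 := by
  unfold Ff
  rw [Complex.norm_exp, Real.exp_le_one_iff, Complex.neg_re, neg_nonpos, Complex.re_sum]
  apply Finset.sum_nonneg
  intro j _
  rw [Complex.re_ofReal_mul]
  apply mul_nonneg (hc j)
  apply re_nonneg
  rw [norm_mul, hω, one_mul]
  exact hv

theorem F_zero (c : κ → ℝ) (ω : κ → ℂ) : Ff c ω 0 = (Real.exp (-∑ j, c j) : ℂ) := by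
  unfold Ff
  simp

theorem meas_F (c : κ → ℝ) (ω : κ → ℂ) : Measurable (Ff c ω) := by
  unfold Ff
  apply Complex.measurable_exp.comp
  apply Measurable.neg
  apply Finset.measurable_fun_sum
  intro j _
  apply Measurable.const_mul
  apply Measurable.div <;> fun_prop

theorem ii {g : ℝ → ℂ} (hm : Measurable g) {M : ℝ} (hb : ∀ θ, ‖g θ‖ ≤ M) (a b : ℝ) :
    IntervalIntegrable g volume a b := by
  rw [intervalIntegrable_iff]
  apply Measure.integrableOn_of_bounded (M := M)
  · rw [Set.uIoc, Real.volume_Ioc]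
    exact ENNReal.ofReal_ne_top
  · exact hm.aestronglyMeasurable
  · exact Eventually.of_forall hb

theorem im_mul (z w : ℂ) : ((z.im * w.im : ℝ) : ℂ) =
    1 / 2 * ((z * (starRingEnd ℂ) w).re : ℂ) - 1 / 4 * (z * w + (starRingEnd ℂ) (z * w)) := by
  apply Complex.ext
  · simp
    ring
  · simp
    ring

end TA

/-- A0 -/
theorem A0 {κ : Type} [Fintype κ] (c : κ → ℝ) (hc : ∀ j, 0 ≤ c j) (ω : κ → ℂ)
    (hω : ∀ j, ‖ω j‖ = 1) :
    ∫ θ in (0:ℝ)..(2 * Real.pi), Ff c ω (Complex.exp (-(2 * θ : ℝ) * Complex.I))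
      = (2 * Real.pi : ℝ) * (Real.exp (-∑ j, c j) : ℂ) := by
  rw [TA.gen (TA.diff_ball c hω) (M := 1) (fun v _ hv => TA.bound hc hω hv) (TA.cont_ae c ω),
    TA.F_zero]

/-- A1 -/
theorem A1 {κ : Type} [Fintype κ] (c : κ → ℝ) (hc : ∀ j, 0 ≤ c j) (ω : κ → ℂ)
    (hω : ∀ j, ‖ω j‖ = 1) (α β : ℂ) :
    ∫ θ in (0:ℝ)..(2 * Real.pi), Ff c ω (Complex.exp (-(2 * θ : ℝ) * Complex.I)) *
        ((((Complex.exp (-(θ : ℝ) * Complex.I)) * α).im *
          ((Complex.exp (-(θ : ℝ) * Complex.I)) * β).im : ℝ) : ℂ)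
      = (2 * Real.pi : ℝ) * (Real.exp (-∑ j, c j) : ℂ) *
        (1 / 2 * ((α * (starRingEnd ℂ) β).re : ℂ)
          - 1 / 2 * (starRingEnd ℂ) (α * β) * ∑ j, (c j : ℂ) * ω j) := by
  set e : ℝ → ℂ := fun θ => Complex.exp (-(2 * θ : ℝ) * Complex.I) with he
  have hen : ∀ θ, ‖e θ‖ = 1 := TA.norm_e
  have hen0 : ∀ θ, e θ ≠ 0 := fun θ => Complex.exp_ne_zero _
  have heinv : ∀ θ, (starRingEnd ℂ) (e θ) = (e θ)⁻¹ := by
    intro θ
    rw [Complex.inv_def, Complex.normSq_eq_norm_sq, hen]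
    simp
  have hem : Measurable e := TA.cont_e.measurable
  -- the three integrals
  have I1 : ∫ θ in (0:ℝ)..(2 * Real.pi), Ff c ω (e θ)
      = (2 * Real.pi : ℝ) * (Real.exp (-∑ j, c j) : ℂ) := A0 c hc ω hω
  have I2 : ∫ θ in (0:ℝ)..(2 * Real.pi), e θ * Ff c ω (e θ) = 0 := by
    have h := TA.gen (G := fun v => v * Ff c ω v) (M := 1)
      (differentiableOn_id.mul (TA.diff_ball c hω)) (fun v _ hv => by
        rw [norm_mul]
        exact mul_le_one₀ hv (norm_nonneg _) (TA.bound hc hω hv)) (by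
        filter_upwards [TA.cont_ae c ω] with θ hθ
        exact continuousAt_id.mul hθ)
    rw [zero_mul, mul_zero] at h
    exact h
  have I3 : ∫ θ in (0:ℝ)..(2 * Real.pi), dslope (Ff c ω) 0 (e θ)
      = (2 * Real.pi : ℝ) * (Real.exp (-∑ j, c j) : ℂ) * (2 * ∑ j, (c j : ℂ) * ω j) := by
    have h := TA.gen (G := dslope (Ff c ω) 0) (M := 4)
      ((Complex.differentiableOn_dslope (Metric.ball_mem_nhds 0 one_pos)).2 (TA.diff_ball c hω))
      (fun v hv1 hv => by
        have hv0 : v ≠ 0 := by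
          intro h0
          rw [h0, norm_zero] at hv1
          norm_num at hv1
        rw [dslope_of_ne _ hv0, slope_def_field, norm_div, sub_zero]
        have hvp : 0 < ‖v‖ := norm_pos_iff.2 hv0
        rw [div_le_iff₀ hvp]
        have b1 := TA.bound hc hω hv
        have b2 := TA.bound hc hω (v := 0) (by simp)
        have b3 := norm_sub_le (Ff c ω v) (Ff c ω 0)
        linarith) (by
        filter_upwards [TA.cont_ae c ω] with θ hθ
        exact (continuousAt_dslope_of_ne (hen0 θ)).2 hθ)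
    have hd := TA.hasDeriv c ω (v := 0) (fun j => by rw [mul_zero, add_zero]; exact one_ne_zero)
    rw [dslope_same, hd.deriv, TA.F_zero] at h
    have h5 : -∑ j, (c j : ℂ) * (-(2 * ω j) / (1 + ω j * 0) ^ 2) = 2 * ∑ j, (c j : ℂ) * ω j := by
      rw [← Finset.sum_neg_distrib, Finset.mul_sum]
      apply Finset.sum_congr rfl
      intro j _
      rw [mul_zero, add_zero]
      ring
    rw [h, h5, mul_assoc]
  have I4 : ∫ θ in (0:ℝ)..(2 * Real.pi), (starRingEnd ℂ) (e θ) = 0 := by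
    have h1 : ∀ θ : ℝ, (starRingEnd ℂ) (e θ) = Complex.exp ((2 * Complex.I) * (θ : ℝ)) := by
      intro θ
      rw [he]
      simp only
      rw [← Complex.exp_conj, map_mul, map_neg, Complex.conj_ofReal, Complex.conj_I]
      congr 1
      push_cast
      ring
    simp only [h1]
    rw [integral_exp_mul_complex (by simp)]
    have h2 : Complex.exp (2 * Complex.I * ((2 * Real.pi : ℝ) : ℂ)) = 1 := by
      rw [Complex.exp_eq_one_iff]
      refine ⟨2, ?_⟩
      push_cast
      ring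
    rw [h2]
    simp
  -- integrability
  have hFm : Measurable fun θ => Ff c ω (e θ) := (TA.meas_F c ω).comp hem
  have J1 : IntervalIntegrable (fun θ => Ff c ω (e θ)) volume 0 (2 * Real.pi) :=
    TA.ii hFm (M := 1) (fun θ => TA.bound hc hω (hen θ).le) _ _
  have J2 : IntervalIntegrable (fun θ => e θ * Ff c ω (e θ)) volume 0 (2 * Real.pi) :=
    TA.ii (hem.mul hFm) (M := 1) (fun θ => by
      show ‖e θ * Ff c ω (e θ)‖ ≤ 1
      rw [norm_mul, hen, one_mul]; exact TA.bound hc hω (hen θ).le) _ _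
  have J4 : IntervalIntegrable (fun θ => (starRingEnd ℂ) (e θ)) volume 0 (2 * Real.pi) :=
    TA.ii (Complex.continuous_conj.measurable.comp hem) (M := 1) (fun θ => by
      rw [Function.comp_apply, RCLike.norm_conj, hen]) _ _
  have e3 : ∀ θ, dslope (Ff c ω) 0 (e θ) =
      (starRingEnd ℂ) (e θ) * Ff c ω (e θ) - Ff c ω 0 * (starRingEnd ℂ) (e θ) := by
    intro θ
    rw [dslope_of_ne _ (hen0 θ), slope_def_field, sub_zero, heinv]
    field_simp
  have J3 : IntervalIntegrable (fun θ => dslope (Ff c ω) 0 (e θ)) volume 0 (2 * Real.pi) := by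
    simp only [e3]
    apply IntervalIntegrable.sub
    · exact TA.ii ((Complex.continuous_conj.measurable.comp hem).mul hFm) (M := 1) (fun θ => by
        rw [Pi.mul_apply, Function.comp_apply, norm_mul, RCLike.norm_conj, hen, one_mul]
        exact TA.bound hc hω (hen θ).le) _ _
    · exact J4.const_mul _
  -- the integrand
  have hint : ∀ θ : ℝ, Ff c ω (e θ) * ((((Complex.exp (-(θ : ℝ) * Complex.I)) * α).im *
          ((Complex.exp (-(θ : ℝ) * Complex.I)) * β).im : ℝ) : ℂ) =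
      (1 / 2 * ((α * (starRingEnd ℂ) β).re : ℂ)) * Ff c ω (e θ) -
        (1 / 4 * (α * β)) * (e θ * Ff c ω (e θ)) -
        (1 / 4 * (starRingEnd ℂ) (α * β)) * (dslope (Ff c ω) 0 (e θ) +
          Ff c ω 0 * (starRingEnd ℂ) (e θ)) := by
    intro θ
    set z := Complex.exp (-(θ : ℝ) * Complex.I) with hz
    have hz2 : z * z = e θ := by
      rw [hz, ← Complex.exp_add, he]
      simp only
      congr 1
      push_cast
      ring
    have hzn : ‖z‖ = 1 := by
      rw [hz, ← Complex.ofReal_neg, Complex.norm_exp_ofReal_mul_I]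
    have hzz : z * (starRingEnd ℂ) z = 1 := by
      rw [Complex.mul_conj, Complex.normSq_eq_norm_sq, hzn]
      simp
    rw [TA.im_mul, e3]
    have h1 : z * α * (starRingEnd ℂ) (z * β) = α * (starRingEnd ℂ) β := by
      rw [map_mul]
      linear_combination (α * (starRingEnd ℂ) β) * hzz
    have h2 : z * α * (z * β) = e θ * (α * β) := by
      linear_combination (α * β) * hz2
    rw [h1, h2, map_mul (starRingEnd ℂ) (e θ) (α * β)]
    ring
  refine (intervalIntegral.integral_congr fun θ _ => hint θ).trans ?_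
  have K1 : IntervalIntegrable (fun θ => (1 / 2 * ((α * (starRingEnd ℂ) β).re : ℂ)) *
      Ff c ω (e θ)) volume 0 (2 * Real.pi) := J1.const_mul _
  have K2 : IntervalIntegrable (fun θ => (1 / 4 * (α * β)) * (e θ * Ff c ω (e θ))) volume 0
      (2 * Real.pi) := J2.const_mul _
  have K4 : IntervalIntegrable (fun θ => Ff c ω 0 * (starRingEnd ℂ) (e θ)) volume 0
      (2 * Real.pi) := J4.const_mul _
  have K3 : IntervalIntegrable (fun θ => (1 / 4 * (starRingEnd ℂ) (α * β)) *
      (dslope (Ff c ω) 0 (e θ) + Ff c ω 0 * (starRingEnd ℂ) (e θ))) volume 0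
      (2 * Real.pi) := (J3.add K4).const_mul _
  rw [intervalIntegral.integral_sub (K1.sub K2) K3, intervalIntegral.integral_sub K1 K2,
    intervalIntegral.integral_const_mul, intervalIntegral.integral_const_mul,
    intervalIntegral.integral_const_mul, intervalIntegral.integral_add J3 K4,
    intervalIntegral.integral_const_mul, I1, I2, I3, I4]
  ring

end GPI427
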