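import Pool.Agent.H427R2.GPI.Defs

set_option autoImplicit false

/-! Gaussian product inequality: rotation average (task B). -/

open MeasureTheory ProbabilityTheory

namespace GPI427

theorem B_ofLp (ι : Type) [Fintype ι] :
    (stdGaussian (EuclideanSpace ℝ ι)).map
      ((PiLp.continuousLinearEquiv 2 ℝ (fun _ : ι => ℝ)) :
        EuclideanSpace ℝ ι →L[ℝ] (ι → ℝ)) = gam ι := by
  rw [← map_pi_eq_stdGaussian, Measure.map_map (by fun_prop) (by fun_prop)]
  exact Measure.map_id

theorem B_gauss (ι : Type) [Fintype ι] : IsGaussian (gam ι) := by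
  rw [← B_ofLp]
  infer_instance

theorem B_mean (ι : Type) [Fintype ι] (L : StrongDual ℝ (ι → ℝ)) : ∫ x, L x ∂(gam ι) = 0 := by
  rw [← B_ofLp, integral_map (by fun_prop) (by fun_prop)]
  exact integral_strongDual_stdGaussian (L.comp ((PiLp.continuousLinearEquiv 2 ℝ (fun _ : ι => ℝ)) :
        EuclideanSpace ℝ ι →L[ℝ] (ι → ℝ)))

theorem B_rot (ι : Type) [Fintype ι] (θ : ℝ) :
    ((gam ι).prod (gam ι)).map (rot θ) = (gam ι).prod (gam ι) := by
  have := B_gauss ι
  exact IsGaussian.map_rotation_eq_self_of_forall_strongDual_eq_zero (B_mean ι) θ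

theorem B_rot_meas (ι : Type) [Fintype ι] :
    Measurable (fun q : ℝ × ((ι → ℝ) × (ι → ℝ)) => rot q.1 q.2) := by
  unfold rot
  fun_prop

theorem B_rot_meas1 (ι : Type) [Fintype ι] (θ : ℝ) :
    Measurable (rot θ : (ι → ℝ) × (ι → ℝ) → (ι → ℝ) × (ι → ℝ)) := by
  unfold rot
  fun_prop

/-- B: rotation average -/
theorem B {ι : Type} [Fintype ι] (G : (ι → ℝ) × (ι → ℝ) → ℂ) (hGm : Measurable G)
    (hG : Integrable G ((gam ι).prod (gam ι))) :
    ((2 * Real.pi : ℝ) : ℂ) * ∫ p, G p ∂((gam ι).prod (gam ι))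
      = ∫ p, (∫ θ in (0:ℝ)..(2 * Real.pi), G (rot θ p)) ∂((gam ι).prod (gam ι)) := by
  have := B_gauss ι
  have hπ : (0 : ℝ) ≤ 2 * Real.pi := by positivity
  have h1 : ∀ θ, ∫ p, G (rot θ p) ∂((gam ι).prod (gam ι)) = ∫ p, G p ∂((gam ι).prod (gam ι)) := by
    intro θ
    have h := integral_map (μ := (gam ι).prod (gam ι)) (φ := rot θ) (f := G)
      (B_rot_meas1 ι θ).aemeasurable hGm.aestronglyMeasurable
    rw [B_rot] at h
    exact h.symm
  have h2 : ∀ θ, ∫ p, ‖G (rot θ p)‖ ∂((gam ι).prod (gam ι)) =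
      ∫ p, ‖G p‖ ∂((gam ι).prod (gam ι)) := by
    intro θ
    have h := integral_map (μ := (gam ι).prod (gam ι)) (φ := rot θ) (f := fun p => ‖G p‖)
      (B_rot_meas1 ι θ).aemeasurable hGm.norm.aestronglyMeasurable
    rw [B_rot] at h
    exact h.symm
  have h3 : ∀ θ, Integrable (fun p => G (rot θ p)) ((gam ι).prod (gam ι)) := by
    intro θ
    have h := (integrable_map_measure (μ := (gam ι).prod (gam ι)) (f := rot θ) (g := G)
      hGm.aestronglyMeasurable (B_rot_meas1 ι θ).aemeasurable).1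
    rw [B_rot] at h
    exact h hG
  have h4 : Integrable (Function.uncurry fun (θ : ℝ) p => G (rot θ p))
      ((volume.restrict (Set.Ioc (0 : ℝ) (2 * Real.pi))).prod ((gam ι).prod (gam ι))) := by
    have hm : Measurable (Function.uncurry fun (θ : ℝ) (p : (ι → ℝ) × (ι → ℝ)) =>
        G (rot θ p)) := hGm.comp (B_rot_meas ι)
    rw [integrable_prod_iff hm.aestronglyMeasurable]
    refine ⟨Filter.Eventually.of_forall h3, ?_⟩
    simp only [Function.uncurry_apply_pair, h2]
    exact integrable_const _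
  simp_rw [intervalIntegral.integral_of_le hπ]
  rw [← integral_integral_swap h4]
  simp_rw [h1]
  rw [integral_const]
  simp only [MeasurableSet.univ, measureReal_restrict_apply, Set.univ_inter, Real.volume_real_Ioc,
    sub_zero]
  rw [max_eq_left hπ, Complex.real_smul]

end GPI427
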