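import Pool.Agent.H427R2.GPI.Defs

set_option autoImplicit false

/-! Task C: algebra. -/

open MeasureTheory ProbabilityTheory

namespace GPI427

theorem C_dot_rot1 {ι : Type} [Fintype ι] (a : ι → ℝ) (p : (ι → ℝ) × (ι → ℝ)) (θ : ℝ) :
    dot a (rot θ p).1 = Real.cos θ * dot a p.1 + Real.sin θ * dot a p.2 := by
  unfold dot rot
  rw [Finset.mul_sum, Finset.mul_sum, ← Finset.sum_add_distrib]
  refine Finset.sum_congr rfl fun i _ => ?_
  simp only [Pi.add_apply, Pi.smul_apply, smul_eq_mul]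
  ring

theorem C_dot_rot2 {ι : Type} [Fintype ι] (a : ι → ℝ) (p : (ι → ℝ) × (ι → ℝ)) (θ : ℝ) :
    dot a (rot θ p).2 = -Real.sin θ * dot a p.1 + Real.cos θ * dot a p.2 := by
  unfold dot rot
  rw [Finset.mul_sum, Finset.mul_sum, ← Finset.sum_add_distrib]
  refine Finset.sum_congr rfl fun i _ => ?_
  simp only [Pi.add_apply, Pi.smul_apply, smul_eq_mul]
  ring

theorem C_exp (θ : ℝ) : Complex.exp (-(θ : ℝ) * Complex.I) =
    (Real.cos θ : ℂ) - (Real.sin θ : ℂ) * Complex.I := by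
  rw [Complex.exp_mul_I, Complex.cos_neg, Complex.sin_neg, ← Complex.ofReal_cos,
    ← Complex.ofReal_sin]
  ring

theorem C_exp2 (θ : ℝ) : Complex.exp (-(2 * θ : ℝ) * Complex.I) =
    ((Real.cos θ : ℂ) - (Real.sin θ : ℂ) * Complex.I) /
      ((Real.cos θ : ℂ) + (Real.sin θ : ℂ) * Complex.I) := by
  have h1 : Complex.exp (-(2 * θ : ℝ) * Complex.I) =
      Complex.exp (-(θ : ℝ) * Complex.I) / Complex.exp ((θ : ℝ) * Complex.I) := by
    rw [← Complex.exp_sub]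
    congr 1
    push_cast
    ring
  rw [h1, C_exp, Complex.exp_mul_I, ← Complex.ofReal_cos, ← Complex.ofReal_sin]

theorem C_ne {a b : ℝ} (ha : a ≠ 0) : (a : ℂ) - Complex.I * (b : ℂ) ≠ 0 := by
  intro h
  have h1 := congrArg Complex.re h
  simp at h1
  exact ha h1

theorem C_alg (a b θ : ℝ) (ha : a ≠ 0) :
    Complex.I * (((-Real.sin θ * a + Real.cos θ * b) / (Real.cos θ * a + Real.sin θ * b) : ℝ) : ℂ) =
      -((1 - ((a : ℂ) + Complex.I * b) / ((a : ℂ) - Complex.I * b) *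
        Complex.exp (-(2 * θ : ℝ) * Complex.I)) /
        (1 + ((a : ℂ) + Complex.I * b) / ((a : ℂ) - Complex.I * b) *
        Complex.exp (-(2 * θ : ℝ) * Complex.I))) := by
  rw [C_exp2]
  obtain ⟨A, hA⟩ : ∃ A : ℝ, A = Real.cos θ * a + Real.sin θ * b := ⟨_, rfl⟩
  obtain ⟨B, hB⟩ : ∃ B : ℝ, B = -Real.sin θ * a + Real.cos θ * b := ⟨_, rfl⟩
  rw [← hA, ← hB]
  have hI : Complex.I * Complex.I = -1 := Complex.I_mul_I
  have h1 : (Real.cos θ : ℂ) + (Real.sin θ : ℂ) * Complex.I ≠ 0 := by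
    have : (Real.cos θ : ℂ) + (Real.sin θ : ℂ) * Complex.I = Complex.exp ((θ : ℝ) * Complex.I) := by
      rw [Complex.exp_mul_I, ← Complex.ofReal_cos, ← Complex.ofReal_sin]
    rw [this]
    exact Complex.exp_ne_zero _
  have h2 := C_ne (b := b) ha
  have n1 : ((a : ℂ) + Complex.I * b) * ((Real.cos θ : ℂ) - (Real.sin θ : ℂ) * Complex.I) =
      (A : ℂ) + Complex.I * B := by
    rw [hA, hB]
    push_cast
    linear_combination (-(b : ℂ) * Complex.sin θ) * hI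
  have n2 : ((a : ℂ) - Complex.I * b) * ((Real.cos θ : ℂ) + (Real.sin θ : ℂ) * Complex.I) =
      (A : ℂ) - Complex.I * B := by
    rw [hA, hB]
    push_cast
    linear_combination (-(b : ℂ) * Complex.sin θ) * hI
  have h3 : (A : ℂ) - Complex.I * B ≠ 0 := by
    rw [← n2]
    exact mul_ne_zero h2 h1
  have h4 : ((a : ℂ) + Complex.I * b) / ((a : ℂ) - Complex.I * b) *
      (((Real.cos θ : ℂ) - (Real.sin θ : ℂ) * Complex.I) /
        ((Real.cos θ : ℂ) + (Real.sin θ : ℂ) * Complex.I)) =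
      ((A : ℂ) + Complex.I * B) / ((A : ℂ) - Complex.I * B) := by
    rw [div_mul_div_comm, n1, n2]
  rw [h4]
  have h5 : 1 - ((A : ℂ) + Complex.I * B) / ((A : ℂ) - Complex.I * B) =
      (-2 * Complex.I * B) / ((A : ℂ) - Complex.I * B) := by
    rw [eq_div_iff h3, sub_mul, div_mul_cancel₀ _ h3]
    ring
  have h6 : 1 + ((A : ℂ) + Complex.I * B) / ((A : ℂ) - Complex.I * B) =
      (2 * A) / ((A : ℂ) - Complex.I * B) := by
    rw [eq_div_iff h3, add_mul, div_mul_cancel₀ _ h3]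
    ring
  rw [h5, h6, div_div_div_cancel_right₀ h3]
  push_cast
  by_cases hA0 : (A : ℂ) = 0
  · rw [hA0]
    simp
  · field_simp

/-- C1 -/
theorem C1 {ι κ : Type} [Fintype ι] [Fintype κ] (u : κ → ι → ℝ) (c : κ → ℝ)
    (p : (ι → ℝ) × (ι → ℝ)) (hp : ∀ j, dot (u j) p.1 ≠ 0) (θ : ℝ) :
    Hf u c (rot θ p) = Ff c (om u p) (Complex.exp (-(2 * θ : ℝ) * Complex.I)) := by
  unfold Hf Ff om
  congr 1
  rw [Complex.ofReal_sum, Finset.mul_sum, ← Finset.sum_neg_distrib]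
  refine Finset.sum_congr rfl fun j _ => ?_
  rw [C_dot_rot1, C_dot_rot2, Complex.ofReal_mul]
  have h := C_alg (dot (u j) p.1) (dot (u j) p.2) θ (hp j)
  calc Complex.I * ((c j : ℂ) * (((-Real.sin θ * dot (u j) p.1 + Real.cos θ * dot (u j) p.2) /
        (Real.cos θ * dot (u j) p.1 + Real.sin θ * dot (u j) p.2) : ℝ) : ℂ))
      = (c j : ℂ) * (Complex.I * (((-Real.sin θ * dot (u j) p.1 + Real.cos θ * dot (u j) p.2) /
        (Real.cos θ * dot (u j) p.1 + Real.sin θ * dot (u j) p.2) : ℝ) : ℂ)) := by ring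
    _ = _ := by rw [h, mul_neg]

/-- C2 -/
theorem C2 {ι κ : Type} [Fintype ι] (u : κ → ι → ℝ)
    (p : (ι → ℝ) × (ι → ℝ)) (j : κ) (hp : dot (u j) p.1 ≠ 0) : ‖om u p j‖ = 1 := by
  unfold om
  have h1 : (dot (u j) p.1 : ℂ) - Complex.I * (dot (u j) p.2 : ℂ) =
      (starRingEnd ℂ) ((dot (u j) p.1 : ℂ) + Complex.I * (dot (u j) p.2 : ℂ)) := by
    simp [sub_eq_add_neg]
  have h2 := C_ne (b := dot (u j) p.2) hp
  have h3 : ‖(dot (u j) p.1 : ℂ) + Complex.I * (dot (u j) p.2 : ℂ)‖ =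
      ‖(dot (u j) p.1 : ℂ) - Complex.I * (dot (u j) p.2 : ℂ)‖ := by
    rw [h1, RCLike.norm_conj]
  rw [norm_div, h3, div_self]
  exact norm_ne_zero_iff.2 h2

/-- C3 -/
theorem C3 {ι : Type} (p : (ι → ℝ) × (ι → ℝ)) (k : ι) (θ : ℝ) :
    (rot θ p).2 k = (Complex.exp (-(θ : ℝ) * Complex.I) * al p k).im := by
  rw [C_exp]
  unfold rot al
  simp only [Pi.add_apply, Pi.smul_apply, smul_eq_mul]
  have h1 : ((Real.cos θ : ℂ) - (Real.sin θ : ℂ) * Complex.I) *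
      ((p.1 k : ℂ) + Complex.I * (p.2 k : ℂ)) =
      ((Real.cos θ * p.1 k + Real.sin θ * p.2 k : ℝ) : ℂ) +
        ((-Real.sin θ * p.1 k + Real.cos θ * p.2 k : ℝ) : ℂ) * Complex.I := by
    push_cast
    linear_combination (-(p.2 k : ℂ) * Complex.sin θ) * Complex.I_mul_I
  rw [h1]
  simp only [Complex.add_im, Complex.ofReal_im, Complex.mul_im, Complex.ofReal_re, Complex.I_im,
    Complex.I_re]
  ring

end GPI427
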