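import Pool.Agent.H427R2.GPI.Defs

set_option autoImplicit false

/-! Gaussian product inequality: a nonzero linear form vanishes almost nowhere. -/

open MeasureTheory ProbabilityTheory

namespace GPI427

theorem D_dot_update {ι : Type} [Fintype ι] [DecidableEq ι] (a x : ι → ℝ) (i : ι) (t : ℝ) :
    dot a (Function.update x i t) = dot a x + a i * (t - x i) := by
  unfold dot
  have h : ∀ j, a j * Function.update x i t j =
      a j * x j + (if j = i then a i * (t - x i) else 0) := by
    intro j
    by_cases hj : j = i
    · subst hj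
      rw [Function.update_self, if_pos rfl]
      ring
    · rw [Function.update_of_ne hj, if_neg hj, add_zero]
  rw [Finset.sum_congr rfl (fun j _ => h j), Finset.sum_add_distrib, Finset.sum_ite_eq']
  simp

theorem D_measurable_dot {ι : Type} [Fintype ι] (a : ι → ℝ) :
    Measurable (fun x : ι → ℝ => dot a x) := by
  unfold dot
  fun_prop

/-- D: a nonzero linear form vanishes almost nowhere -/
theorem D {ι : Type} [Fintype ι] (a : ι → ℝ) (ha : a ≠ 0) :
    ∀ᵐ x ∂(gam ι), dot a x ≠ 0 := by
  classical
  obtain ⟨i, hi⟩ := Function.ne_iff.1 ha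
  have hi' : a i ≠ 0 := hi
  have hm : MeasurableSet {x : ι → ℝ | dot a x = 0} :=
    (D_measurable_dot a) (measurableSet_singleton 0)
  rw [ae_iff]
  simp only [not_not]
  rw [← lintegral_indicator_one hm]
  have key : ∫⁻ x, ({x : ι → ℝ | dot a x = 0}.indicator 1 x : ENNReal)
        ∂(Measure.pi fun _ : ι => gaussianReal 0 1) =
      ∫⁻ x, (0 : (ι → ℝ) → ENNReal) x ∂(Measure.pi fun _ : ι => gaussianReal 0 1) := by
    refine lintegral_eq_of_lmarginal_eq {i} (measurable_one.indicator hm) measurable_zero ?_
    rw [lmarginal_singleton, lmarginal_singleton]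
    funext x
    refine lintegral_congr_ae ?_
    have : NullSingletonClass (gaussianReal 0 1) := nullSingletonClass_gaussianReal one_ne_zero
    have hae : ∀ᵐ t ∂(gaussianReal 0 1), t ≠ x i - dot a x / a i :=
      compl_mem_ae_iff.2 (measure_singleton _)
    filter_upwards [hae] with t ht
    rw [Set.indicator_of_notMem]
    · rfl
    · intro hmem
      apply ht
      have h0 : dot a (Function.update x i t) = 0 := hmem
      rw [D_dot_update] at h0
      field_simp
      linarith
  calc ∫⁻ x, ({x : ι → ℝ | dot a x = 0}.indicator 1 x : ENNReal) ∂(gam ι)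
      = ∫⁻ x, (0 : (ι → ℝ) → ENNReal) x ∂(Measure.pi fun _ : ι => gaussianReal 0 1) := key
    _ = 0 := by simp

end GPI427
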