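import Pool.Agent.H427R2.GPI.Defs

set_option autoImplicit false

/-! Task E: odd symmetries (helper797). -/

open MeasureTheory ProbabilityTheory

namespace GPI427

open Classical in
/-- flip the sign of coordinate `k` -/
noncomputable def E_flip {ι : Type} (k : ι) (x : ι → ℝ) : ι → ℝ :=
  fun i => (if i = k then (fun y : ℝ => -y) else id) (x i)

lemma E_flip_k {ι : Type} (k : ι) (x : ι → ℝ) : E_flip k x k = -x k := by
  simp [E_flip]

lemma E_flip_ne {ι : Type} (k l : ι) (h : l ≠ k) (x : ι → ℝ) : E_flip k x l = x l := by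
  simp [E_flip, h]

lemma E_flip_flip {ι : Type} (k : ι) (x : ι → ℝ) : E_flip k (E_flip k x) = x := by
  funext i
  by_cases h : i = k
  · subst h; rw [E_flip_k, E_flip_k, neg_neg]
  · rw [E_flip_ne k i h, E_flip_ne k i h]

lemma E_flip_mp {ι : Type} [Fintype ι] (k : ι) :
    MeasurePreserving (E_flip k) (gam ι) (gam ι) := by
  classical
  unfold gam E_flip
  apply measurePreserving_pi
  intro i
  by_cases h : i = k
  · rw [if_pos h]
    refine ⟨measurable_neg, ?_⟩
    have := gaussianReal_map_neg (μ := 0) (v := 1)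
    rw [neg_zero] at this
    exact this
  · rw [if_neg h]
    exact MeasurePreserving.id _

/-- flip in both components -/
noncomputable def E_flip2 {ι : Type} (k : ι) (p : (ι → ℝ) × (ι → ℝ)) : (ι → ℝ) × (ι → ℝ) :=
  Prod.map (E_flip k) (E_flip k) p

lemma E_flip2_mp {ι : Type} [Fintype ι] (k : ι) :
    MeasurePreserving (E_flip2 k) ((gam ι).prod (gam ι)) ((gam ι).prod (gam ι)) := by
  haveI : SigmaFinite (gam ι) := by unfold gam; infer_instance
  exact (E_flip_mp k).prod (E_flip_mp k)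

lemma E_flip2_flip2 {ι : Type} (k : ι) (p : (ι → ℝ) × (ι → ℝ)) :
    E_flip2 k (E_flip2 k p) = p := by
  obtain ⟨x, y⟩ := p
  simp [E_flip2, E_flip_flip]

lemma E_odd {ι : Type} [Fintype ι] (k : ι) (F : (ι → ℝ) × (ι → ℝ) → ℂ)
    (h : ∀ p, F (E_flip2 k p) = -F p) : ∫ p, F p ∂((gam ι).prod (gam ι)) = 0 := by
  have hm := E_flip2_mp (ι := ι) k
  let e : ((ι → ℝ) × (ι → ℝ)) ≃ᵐ ((ι → ℝ) × (ι → ℝ)) :=
    { toFun := E_flip2 k
      invFun := E_flip2 k
      left_inv := E_flip2_flip2 k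
      right_inv := E_flip2_flip2 k
      measurable_toFun := hm.measurable
      measurable_invFun := hm.measurable }
  have h1 := hm.integral_comp e.measurableEmbedding F
  simp only [h] at h1
  rw [integral_neg] at h1
  have h2 : (2 : ℂ) * ∫ p, F p ∂((gam ι).prod (gam ι)) = 0 := by
    linear_combination -h1
  rcases mul_eq_zero.1 h2 with h3 | h3
  · norm_num at h3
  · exact h3

lemma E_al_k {ι : Type} (k : ι) (p : (ι → ℝ) × (ι → ℝ)) : al (E_flip2 k p) k = -al p k := by
  simp only [al, E_flip2, Prod.map_fst, Prod.map_snd, E_flip_k]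
  push_cast; ring

lemma E_al_ne {ι : Type} (k l : ι) (h : l ≠ k) (p : (ι → ℝ) × (ι → ℝ)) :
    al (E_flip2 k p) l = al p l := by
  simp only [al, E_flip2, Prod.map_fst, Prod.map_snd, E_flip_ne k l h]

lemma E_dot {ι : Type} [Fintype ι] (a : ι → ℝ) (k : ι) (h : a k = 0) (x : ι → ℝ) :
    dot a (E_flip k x) = dot a x := by
  unfold dot
  apply Finset.sum_congr rfl
  intro i _
  by_cases hi : i = k
  · subst hi; rw [h, zero_mul, zero_mul]
  · rw [E_flip_ne k i hi]

lemma E_om {ι κ : Type} [Fintype ι] (u : κ → ι → ℝ) (j : κ) (k : ι) (h : u j k = 0)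
    (p : (ι → ℝ) × (ι → ℝ)) : om u (E_flip2 k p) j = om u p j := by
  simp only [om, E_flip2, Prod.map_fst, Prod.map_snd, E_dot _ k h]

/-- E1 -/
theorem E1 {ι : Type} [Fintype ι] (k l : ι) (hkl : k ≠ l) :
    ∫ p, ((al p k * (starRingEnd ℂ) (al p l)).re : ℂ) ∂((gam ι).prod (gam ι)) = 0 := by
  apply E_odd k
  intro p
  rw [E_al_k, E_al_ne k l hkl.symm, neg_mul, Complex.neg_re, Complex.ofReal_neg]

/-- E2 -/
theorem E2 {ι κ : Type} [Fintype ι] (u : κ → ι → ℝ) (j : κ) (k l : ι) (hkl : k ≠ l)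
    (h : u j k = 0 ∨ u j l = 0) :
    ∫ p, (starRingEnd ℂ) (al p k * al p l) * om u p j ∂((gam ι).prod (gam ι)) = 0 := by
  rcases h with h | h
  · apply E_odd k
    intro p
    rw [E_al_k, E_al_ne k l hkl.symm, E_om u j k h, neg_mul, map_neg, neg_mul]
  · apply E_odd l
    intro p
    rw [E_al_k, E_al_ne l k hkl, E_om u j l h, mul_neg, map_neg, neg_mul]

end GPI427
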