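import Pool.Agent.H427R2.GPI.Defs

set_option autoImplicit false

/-! Gaussian Fourier integrals. -/

open MeasureTheory ProbabilityTheory

namespace GPI427

theorem tG_one (s : ℝ) :
    ∫ z : ℝ, Complex.exp (Complex.I * ((s * z : ℝ) : ℂ)) ∂(gaussianReal 0 1)
      = (Real.exp (-(s ^ 2) / 2) : ℂ) := by
  have h := charFun_gaussianReal (μ := 0) (v := 1) s
  rw [charFun_apply_real] at h
  have e : (fun z : ℝ => Complex.exp (Complex.I * ((s * z : ℝ) : ℂ))) =
      fun z : ℝ => Complex.exp (s * z * Complex.I) := by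
    funext z
    congr 1
    push_cast
    ring
  rw [e, h, Complex.ofReal_exp]
  congr 1
  push_cast
  simp
  ring

theorem tG_two (s : ℝ) :
    ∫ z : ℝ, Complex.exp (Complex.I * ((s * z : ℝ) : ℂ)) * (z : ℂ) ∂(gaussianReal 0 1)
      = Complex.I * s * (Real.exp (-(s ^ 2) / 2) : ℂ) := by
  have h1 : HasDerivAt (complexMGF id (gaussianReal 0 1))
      (∫ z : ℝ, (id z : ℂ) * Complex.exp ((s * Complex.I) * (id z : ℝ)) ∂(gaussianReal 0 1))
      (s * Complex.I) := by
    apply hasDerivAt_complexMGF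
    simp [integrableExpSet_id_gaussianReal]
  have h2 : complexMGF id (gaussianReal 0 1) = fun z : ℂ => Complex.exp (z ^ 2 / 2) := by
    funext z
    rw [complexMGF_id_gaussianReal]
    congr 1
    simp
  have h3 : HasDerivAt (fun z : ℂ => Complex.exp (z ^ 2 / 2))
      (Complex.exp ((s * Complex.I) ^ 2 / 2) * (s * Complex.I)) (s * Complex.I) := by
    have h4 : HasDerivAt (fun z : ℂ => z ^ 2 / 2) (s * Complex.I) (s * Complex.I) := by
      have := ((hasDerivAt_id (s * Complex.I : ℂ)).pow 2).div_const 2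
      refine this.congr_deriv ?_
      norm_num
    exact h4.cexp
  rw [h2] at h1
  have h5 := h1.unique h3
  have e : (fun z : ℝ => Complex.exp (Complex.I * ((s * z : ℝ) : ℂ)) * (z : ℂ)) =
      fun z : ℝ => (id z : ℂ) * Complex.exp ((s * Complex.I) * (id z : ℝ)) := by
    funext z
    simp only [id]
    rw [mul_comm]
    congr 2
    push_cast
    ring
  rw [e, h5, Complex.ofReal_exp]
  have : (((s : ℂ) * Complex.I) ^ 2 / 2) = ((-(s ^ 2) / 2 : ℝ) : ℂ) := by
    rw [mul_pow, Complex.I_sq]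
    push_cast
    ring
  rw [this]
  ring

theorem tG_exp {ι : Type} [Fintype ι] (s x : ι → ℝ) :
    Complex.exp (Complex.I * ((dot s x : ℝ) : ℂ)) =
      ∏ i, Complex.exp (Complex.I * ((s i * x i : ℝ) : ℂ)) := by
  rw [← Complex.exp_sum, ← Finset.mul_sum]
  unfold dot
  push_cast
  rfl

theorem tG_prod {ι : Type} [Fintype ι] (s : ι → ℝ) :
    ∏ i, (Real.exp (-(s i ^ 2) / 2) : ℂ) = (Real.exp (-(∑ i, s i ^ 2) / 2) : ℂ) := by
  rw [← Complex.ofReal_prod, ← Real.exp_sum, ← Finset.sum_div, Finset.sum_neg_distrib]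

/-- G0 -/
theorem G0 {ι : Type} [Fintype ι] (s : ι → ℝ) :
    ∫ x, Complex.exp (Complex.I * ((dot s x : ℝ) : ℂ)) ∂(gam ι)
      = (Real.exp (-(∑ i, s i ^ 2) / 2) : ℂ) := by
  unfold gam
  simp_rw [tG_exp]
  rw [integral_fintype_prod_eq_prod (𝕜 := ℂ)
    (f := fun i (t : ℝ) => Complex.exp (Complex.I * ((s i * t : ℝ) : ℂ)))]
  simp_rw [tG_one]
  exact tG_prod s

/-- G1 -/
theorem G1 {ι : Type} [Fintype ι] (s : ι → ℝ) (k l : ι) (hkl : k ≠ l) :
    ∫ x, Complex.exp (Complex.I * ((dot s x : ℝ) : ℂ)) * ((x k * x l : ℝ) : ℂ) ∂(gam ι)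
      = -((s k * s l * Real.exp (-(∑ i, s i ^ 2) / 2) : ℝ) : ℂ) := by
  classical
  unfold gam
  have key : ∀ (g : ι → ℂ), (∏ i, if i = k ∨ i = l then g i else 1) = g k * g l := by
    intro g
    rw [Finset.prod_ite, Finset.prod_const_one, mul_one]
    have : (Finset.univ.filter fun i => i = k ∨ i = l) = {k, l} := by
      ext i; simp
    rw [this, Finset.prod_pair hkl]
  have e : ∀ x : ι → ℝ, Complex.exp (Complex.I * ((dot s x : ℝ) : ℂ)) * ((x k * x l : ℝ) : ℂ) =
      ∏ i, (Complex.exp (Complex.I * ((s i * x i : ℝ) : ℂ)) *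
        (if i = k ∨ i = l then (x i : ℂ) else 1)) := by
    intro x
    rw [Finset.prod_mul_distrib, ← tG_exp, key (fun i => (x i : ℂ))]
    push_cast
    rfl
  simp_rw [e]
  rw [integral_fintype_prod_eq_prod (𝕜 := ℂ)
    (f := fun i (t : ℝ) => Complex.exp (Complex.I * ((s i * t : ℝ) : ℂ)) *
      (if i = k ∨ i = l then (t : ℂ) else 1))]
  have h1 : ∀ i, ∫ t : ℝ, Complex.exp (Complex.I * ((s i * t : ℝ) : ℂ)) *
      (if i = k ∨ i = l then (t : ℂ) else 1) ∂(gaussianReal 0 1) =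
      (Real.exp (-(s i ^ 2) / 2) : ℂ) * (if i = k ∨ i = l then Complex.I * s i else 1) := by
    intro i
    by_cases h : i = k ∨ i = l
    · simp only [h, if_true]
      rw [tG_two]
      ring
    · simp only [h, if_false, mul_one]
      exact tG_one (s i)
  simp_rw [h1]
  rw [Finset.prod_mul_distrib, tG_prod, key (fun i => Complex.I * s i)]
  have : Complex.I * (s k : ℂ) * (Complex.I * (s l : ℂ)) = -((s k : ℂ) * s l) := by
    have := Complex.I_mul_I
    linear_combination (s k : ℂ) * s l * this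
  rw [this]
  push_cast
  ring

end GPI427
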