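import Pool.Agent.H427R2.GPI.T_A
import Pool.Agent.H427R2.GPI.T_B
import Pool.Agent.H427R2.GPI.T_C
import Pool.Agent.H427R2.GPI.T_D
import Pool.Agent.H427R2.GPI.T_E
import Pool.Agent.H427R2.GPI.T_G

set_option autoImplicit false

/-! Task H of helper427 (Gaussian product inequality): assembly (helper715). -/

open MeasureTheory ProbabilityTheory

namespace GPI427


theorem H_prob (ι : Type) [Fintype ι] : IsProbabilityMeasure (gam ι) := by
  unfold gam; infer_instance

theorem H_dot_meas {ι : Type} [Fintype ι] (a : ι → ℝ) : Measurable (fun x : ι → ℝ => dot a x) := by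
  unfold dot
  refine Finset.measurable_sum _ fun i _ => ?_
  have h : Measurable (fun x : ι → ℝ => x i) := measurable_pi_apply i
  exact h.const_mul (a i)

theorem H_dot_Sv {ι κ : Type} [Fintype ι] [Fintype κ] (u : κ → ι → ℝ) (c : κ → ℝ)
    (x x' : ι → ℝ) : ∑ j, c j * (dot (u j) x' / dot (u j) x) = dot (Sv u c x) x' := by
  have h1 : dot (Sv u c x) x' = ∑ i, ∑ j, c j / dot (u j) x * u j i * x' i := by
    show ∑ i, (∑ j, c j / dot (u j) x * u j i) * x' i = _
    exact Finset.sum_congr rfl fun i _ => Finset.sum_mul _ _ _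
  rw [h1, Finset.sum_comm]
  refine Finset.sum_congr rfl fun j _ => ?_
  have h2 : dot (u j) x' = ∑ i, u j i * x' i := rfl
  rw [h2, Finset.sum_div, Finset.mul_sum]
  exact Finset.sum_congr rfl fun i _ => by ring

theorem H_Hf_eq {ι κ : Type} [Fintype ι] [Fintype κ] (u : κ → ι → ℝ) (c : κ → ℝ)
    (x x' : ι → ℝ) : Hf u c (x, x') = Complex.exp (Complex.I * ((dot (Sv u c x) x' : ℝ) : ℂ)) := by
  rw [← H_dot_Sv]; rfl

theorem H_Hf_norm {ι κ : Type} [Fintype ι] [Fintype κ] (u : κ → ι → ℝ) (c : κ → ℝ)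
    (p : (ι → ℝ) × (ι → ℝ)) : ‖Hf u c p‖ = 1 := by
  unfold Hf
  rw [mul_comm]
  exact Complex.norm_exp_ofReal_mul_I _

theorem H_Hf_meas {ι κ : Type} [Fintype ι] [Fintype κ] (u : κ → ι → ℝ) (c : κ → ℝ) :
    Measurable (Hf u c) := by
  unfold Hf
  refine Complex.measurable_exp.comp (Measurable.const_mul ?_ _)
  refine Complex.measurable_ofReal.comp ?_
  refine Finset.measurable_sum _ fun j _ => Measurable.const_mul ?_ _
  exact ((H_dot_meas (u j)).comp measurable_snd).div ((H_dot_meas (u j)).comp measurable_fst)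

theorem H_ae {ι κ : Type} [Fintype ι] [Fintype κ] (u : κ → ι → ℝ) (hu : ∀ j, u j ≠ 0) :
    ∀ᵐ p ∂((gam ι).prod (gam ι)), ∀ j, dot (u j) p.1 ≠ 0 := by
  have := H_prob ι
  rw [ae_all_iff]
  intro j
  exact (Measure.quasiMeasurePreserving_fst (μ := gam ι) (ν := gam ι)).ae (D (u j) (hu j))

theorem H_Hf_int {ι κ : Type} [Fintype ι] [Fintype κ] (u : κ → ι → ℝ) (c : κ → ℝ) :
    Integrable (Hf u c) ((gam ι).prod (gam ι)) := by
  have := H_prob ι
  refine (integrable_const (1 : ℝ)).mono' (H_Hf_meas u c).aestronglyMeasurable ?_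
  exact Filter.Eventually.of_forall fun p => (H_Hf_norm u c p).le

theorem H_two_pi : ((2 * Real.pi : ℝ) : ℂ) ≠ 0 := by
  exact_mod_cast (by positivity : (2 * Real.pi : ℝ) ≠ 0)

/-- H0 (uses A0 B C1 C2 D G0) -/
theorem H0 {ι κ : Type} [Fintype ι] [Fintype κ] (u : κ → ι → ℝ) (hu : ∀ j, u j ≠ 0)
    (c : κ → ℝ) (hc : ∀ j, 0 ≤ c j) :
    ∫ x, Real.exp (-(∑ i, Sv u c x i ^ 2) / 2) ∂(gam ι) = Real.exp (-∑ j, c j) := by
  have := H_prob ι
  have h1 : ((∫ x, Real.exp (-(∑ i, Sv u c x i ^ 2) / 2) ∂(gam ι) : ℝ) : ℂ)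
      = ∫ p, Hf u c p ∂((gam ι).prod (gam ι)) := by
    rw [integral_prod _ (H_Hf_int u c), ← integral_complex_ofReal]
    refine integral_congr_ae (Filter.Eventually.of_forall fun x => ?_)
    show ((Real.exp (-(∑ i, Sv u c x i ^ 2) / 2) : ℝ) : ℂ) = ∫ x', Hf u c (x, x') ∂(gam ι)
    rw [← G0 (Sv u c x)]
    exact integral_congr_ae (Filter.Eventually.of_forall fun x' => (H_Hf_eq u c x x').symm)
  have h2 := B (Hf u c) (H_Hf_meas u c) (H_Hf_int u c)
  have h3 : ∫ p, (∫ θ in (0:ℝ)..(2 * Real.pi), Hf u c (rot θ p)) ∂((gam ι).prod (gam ι))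
      = ∫ _p, (2 * Real.pi : ℝ) * (Real.exp (-∑ j, c j) : ℂ) ∂((gam ι).prod (gam ι)) := by
    refine integral_congr_ae ?_
    filter_upwards [H_ae u hu] with p hp
    rw [← A0 c hc (om u p) (fun j => C2 u p j (hp j))]
    refine intervalIntegral.integral_congr fun θ _ => ?_
    exact C1 u c p hp θ
  rw [h3, integral_const] at h2
  simp only [probReal_univ, one_smul] at h2
  have h4 := mul_left_cancel₀ H_two_pi h2
  rw [← h1] at h4
  exact_mod_cast h4

theorem H_sq_int {ι : Type} [Fintype ι] (k : ι) : Integrable (fun x : ι → ℝ => x k ^ 2) (gam ι) := by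
  have h1 : MeasurePreserving (Function.eval k) (Measure.pi fun _ : ι => gaussianReal 0 1)
      (gaussianReal 0 1) := measurePreserving_eval (fun _ : ι => gaussianReal 0 1) k
  have h2 : Integrable (fun y : ℝ => y ^ 2) (gaussianReal 0 1) := by
    have := (memLp_id_gaussianReal (μ := 0) (v := 1) 2).integrable_sq
    simpa using this
  exact h1.integrable_comp_of_integrable h2

theorem H_mul_int {ι : Type} [Fintype ι] (k l : ι) :
    Integrable (fun x : ι → ℝ => x k * x l) (gam ι) := by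
  refine ((H_sq_int k).add (H_sq_int l)).mono'
    ((measurable_pi_apply k).mul (measurable_pi_apply l)).aestronglyMeasurable ?_
  refine Filter.Eventually.of_forall fun x => ?_
  show ‖x k * x l‖ ≤ x k ^ 2 + x l ^ 2
  rw [Real.norm_eq_abs, abs_le]
  constructor <;> nlinarith [sq_nonneg (x k + x l), sq_nonneg (x k - x l), sq_nonneg (x k),
    sq_nonneg (x l)]

theorem H_al_norm {ι : Type} (p : (ι → ℝ) × (ι → ℝ)) (k : ι) :
    ‖al p k‖ ^ 2 = p.1 k ^ 2 + p.2 k ^ 2 := by
  unfold al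
  rw [← Complex.normSq_eq_norm_sq, Complex.normSq_apply]
  simp
  ring

theorem H_al_meas {ι : Type} [Fintype ι] (k : ι) :
    Measurable (fun p : (ι → ℝ) × (ι → ℝ) => al p k) := by
  unfold al
  exact (Complex.measurable_ofReal.comp ((measurable_pi_apply k).comp measurable_fst)).add
    ((Complex.measurable_ofReal.comp ((measurable_pi_apply k).comp measurable_snd)).const_mul _)

theorem H_om_meas {ι κ : Type} [Fintype ι] (u : κ → ι → ℝ) (j : κ) :
    Measurable (fun p : (ι → ℝ) × (ι → ℝ) => om u p j) := by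
  unfold om
  have h1 : Measurable (fun p : (ι → ℝ) × (ι → ℝ) => ((dot (u j) p.1 : ℝ) : ℂ)) :=
    Complex.measurable_ofReal.comp ((H_dot_meas (u j)).comp measurable_fst)
  have h2 : Measurable (fun p : (ι → ℝ) × (ι → ℝ) => ((dot (u j) p.2 : ℝ) : ℂ)) :=
    Complex.measurable_ofReal.comp ((H_dot_meas (u j)).comp measurable_snd)
  exact (h1.add (h2.const_mul _)).div (h1.sub (h2.const_mul _))

theorem H_dom_int {ι : Type} [Fintype ι] (k l : ι) :
    Integrable (fun p : (ι → ℝ) × (ι → ℝ) => p.1 k ^ 2 + p.2 k ^ 2 + (p.1 l ^ 2 + p.2 l ^ 2))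
      ((gam ι).prod (gam ι)) := by
  have := H_prob ι
  have h1 : ∀ m : ι, Integrable (fun p : (ι → ℝ) × (ι → ℝ) => p.1 m ^ 2)
      ((gam ι).prod (gam ι)) := fun m => (H_sq_int m).comp_fst _
  have h2 : ∀ m : ι, Integrable (fun p : (ι → ℝ) × (ι → ℝ) => p.2 m ^ 2)
      ((gam ι).prod (gam ι)) := fun m => (H_sq_int m).comp_snd _
  exact ((h1 k).add (h2 k)).add ((h1 l).add (h2 l))

theorem H_al_mul_le {ι : Type} (p : (ι → ℝ) × (ι → ℝ)) (k l : ι) :
    ‖al p k‖ * ‖al p l‖ ≤ p.1 k ^ 2 + p.2 k ^ 2 + (p.1 l ^ 2 + p.2 l ^ 2) := by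
  rw [← H_al_norm, ← H_al_norm]
  nlinarith [sq_nonneg (‖al p k‖ - ‖al p l‖), sq_nonneg (‖al p k‖), sq_nonneg (‖al p l‖)]

/-- H1 (uses A1 B C1 C2 C3 D E1 E2 G1) -/
theorem H1 {ι κ : Type} [Fintype ι] [Fintype κ] (u : κ → ι → ℝ) (hu : ∀ j, u j ≠ 0)
    (c : κ → ℝ) (hc : ∀ j, 0 ≤ c j) (k l : ι) (hkl : k ≠ l)
    (h : ∀ j, u j k = 0 ∨ u j l = 0) :
    ∫ x, Sv u c x k * Sv u c x l * Real.exp (-(∑ i, Sv u c x i ^ 2) / 2) ∂(gam ι) = 0 := by
  have := H_prob ι
  set G : (ι → ℝ) × (ι → ℝ) → ℂ := fun p => Hf u c p * ((p.2 k * p.2 l : ℝ) : ℂ) with hG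
  have hGm : Measurable G := (H_Hf_meas u c).mul (Complex.measurable_ofReal.comp
    (((measurable_pi_apply k).comp measurable_snd).mul
      ((measurable_pi_apply l).comp measurable_snd)))
  have hGi : Integrable G ((gam ι).prod (gam ι)) := by
    refine ((H_mul_int k l).norm.comp_snd (gam ι)).mono' hGm.aestronglyMeasurable ?_
    refine Filter.Eventually.of_forall fun p => ?_
    show ‖Hf u c p * ((p.2 k * p.2 l : ℝ) : ℂ)‖ ≤ ‖p.2 k * p.2 l‖
    rw [norm_mul, H_Hf_norm, one_mul, Complex.norm_real]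
  have h1 : -((∫ x, Sv u c x k * Sv u c x l * Real.exp (-(∑ i, Sv u c x i ^ 2) / 2)
      ∂(gam ι) : ℝ) : ℂ) = ∫ p, G p ∂((gam ι).prod (gam ι)) := by
    rw [integral_prod _ hGi, ← integral_complex_ofReal, ← integral_neg]
    refine integral_congr_ae (Filter.Eventually.of_forall fun x => ?_)
    show -((Sv u c x k * Sv u c x l * Real.exp (-(∑ i, Sv u c x i ^ 2) / 2) : ℝ) : ℂ)
      = ∫ x', G (x, x') ∂(gam ι)
    rw [← G1 (Sv u c x) k l hkl]
    refine integral_congr_ae (Filter.Eventually.of_forall fun x' => ?_)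
    show _ = Hf u c (x, x') * ((x' k * x' l : ℝ) : ℂ)
    rw [H_Hf_eq]
  have h2 := B G hGm hGi
  set R : (ι → ℝ) × (ι → ℝ) → ℂ := fun p => ((al p k * (starRingEnd ℂ) (al p l)).re : ℂ) with hR
  set Q : κ → (ι → ℝ) × (ι → ℝ) → ℂ :=
    fun j p => (starRingEnd ℂ) (al p k * al p l) * om u p j with hQ
  set E : ℂ := (2 * Real.pi : ℝ) * (Real.exp (-∑ j, c j) : ℂ) with hE
  have h3 : ∫ p, (∫ θ in (0:ℝ)..(2 * Real.pi), G (rot θ p)) ∂((gam ι).prod (gam ι))
      = ∫ p, (E * (1 / 2) * R p - ∑ j, (E * (1 / 2) * c j) * Q j p)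
        ∂((gam ι).prod (gam ι)) := by
    refine integral_congr_ae ?_
    filter_upwards [H_ae u hu] with p hp
    have h5 := A1 c hc (om u p) (fun j => C2 u p j (hp j)) (al p k) (al p l)
    have h6 : ∫ θ in (0:ℝ)..(2 * Real.pi), G (rot θ p)
        = ∫ θ in (0:ℝ)..(2 * Real.pi), Ff c (om u p) (Complex.exp (-(2 * θ : ℝ) * Complex.I)) *
        ((((Complex.exp (-(θ : ℝ) * Complex.I)) * al p k).im *
          ((Complex.exp (-(θ : ℝ) * Complex.I)) * al p l).im : ℝ) : ℂ) := by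
      refine intervalIntegral.integral_congr fun θ _ => ?_
      show Hf u c (rot θ p) * (((rot θ p).2 k * (rot θ p).2 l : ℝ) : ℂ) = _
      rw [C1 u c p hp θ, C3 p k θ, C3 p l θ]
    rw [h6, h5]
    have h7 : ∑ j, (E * (1 / 2) * c j) * Q j p
        = E * (1 / 2) * ((starRingEnd ℂ) (al p k * al p l) * ∑ j, (c j : ℂ) * om u p j) := by
      rw [Finset.mul_sum, Finset.mul_sum]
      refine Finset.sum_congr rfl fun j _ => ?_
      rw [hQ]; ring
    rw [h7, hR, hE]
    ring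
  have hRi : Integrable R ((gam ι).prod (gam ι)) := by
    refine (H_dom_int k l).mono' ?_ (Filter.Eventually.of_forall fun p => ?_)
    · exact (Complex.measurable_ofReal.comp (Complex.measurable_re.comp
        ((H_al_meas k).mul (Complex.continuous_conj.measurable.comp
          (H_al_meas l))))).aestronglyMeasurable
    · show ‖((al p k * (starRingEnd ℂ) (al p l)).re : ℂ)‖ ≤ _
      refine le_trans ?_ (H_al_mul_le p k l)
      rw [Complex.norm_real]
      refine (Complex.abs_re_le_norm _).trans ?_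
      rw [norm_mul, Complex.norm_conj]
  have hQi : ∀ j, Integrable (Q j) ((gam ι).prod (gam ι)) := by
    intro j
    refine (H_dom_int k l).mono' ?_ ?_
    · exact ((Complex.continuous_conj.measurable.comp ((H_al_meas k).mul (H_al_meas l))).mul
        (H_om_meas u j)).aestronglyMeasurable
    · filter_upwards [H_ae u hu] with p hp
      show ‖(starRingEnd ℂ) (al p k * al p l) * om u p j‖ ≤ _
      rw [norm_mul, C2 u p j (hp j), mul_one, Complex.norm_conj, norm_mul]
      exact H_al_mul_le p k l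
  have h8 : ∫ p, (E * (1 / 2) * R p - ∑ j, (E * (1 / 2) * c j) * Q j p)
        ∂((gam ι).prod (gam ι)) = 0 := by
    rw [integral_sub (hRi.const_mul _) (integrable_finsetSum _ fun j _ => (hQi j).const_mul _),
      integral_finsetSum _ fun j _ => (hQi j).const_mul _, integral_const_mul]
    have h9 : ∫ p, R p ∂((gam ι).prod (gam ι)) = 0 := E1 k l hkl
    rw [h9, mul_zero, zero_sub, neg_eq_zero]
    refine Finset.sum_eq_zero fun j _ => ?_
    rw [integral_const_mul]
    have h10 : ∫ p, Q j p ∂((gam ι).prod (gam ι)) = 0 := E2 u j k l hkl (h j)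
    rw [h10, mul_zero]
  rw [h3, h8] at h2
  have h11 : ∫ p, G p ∂((gam ι).prod (gam ι)) = 0 := by
    rcases mul_eq_zero.mp h2 with h12 | h12
    · exact absurd h12 H_two_pi
    · exact h12
  rw [h11, neg_eq_zero] at h1
  exact_mod_cast h1

end GPI427

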